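import Mathlib
import Pool.Agent.Lib.MP_9c2ea5_nt.AZser

/-!
# JOB F/FZ: finite sums of zeta (about 80 lines)

`Pool.Agent.Lib.MP_9c2ea5_nt.An`: `bz n s = n ^ (-s) - ∫ x in n..n+1, x ^ (-s)` (file AZb.lean), `zeta0_eq : HasSum (fun n => bz (n + 1) s) (riemannZeta₀ s)` for `0 < s.re`, `bz_norm2 : ‖bz n s‖ ≤ ‖s‖ * n ^ (-s.re - 1)`;
and `riemannZeta s = 1 / (s - 1) + riemannZeta₀ s` for `s ≠ 1` (`riemannZeta_eq_inv_sub_add`, see its use in MP_9c2ea5_nt/AMert.lean and AZlow.lean).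
The sum of the first `N` terms is `∑_{n ≤ N} n ^ (-s) - ∫ x in 1..N+1, x ^ (-s)` (`intervalIntegral.sum_integral_adjacent_intervals`), and `∫ x in 1..N+1, x ^ (-s) = (1 - (N + 1) ^ (1 - s)) / (s - 1)` (`integral_cpow`).
So `ζ(s) - ∑_{n ≤ N} n ^ (-s) - (N + 1) ^ (1 - s)/(s - 1) = ∑_{n > N} bz n s`, of norm at most `‖s‖ ∑_{n > N} n ^ (-s.re - 1) ≤ ‖s‖ N ^ (-s.re)/s.re` (compare the end of the proof of `zeta0_le` in AZser.lean, which bounds exactly this tail: copy that part).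
-/

namespace Pool.Agent.Lib.MP_ec260d_ntD

open Complex

open Finset Pool.Agent.Lib.MP_9c2ea5_nt.An in
private theorem FZ_partial (s : ℂ) (hs1 : s ≠ 1) (K : ℕ) :
    ∑ i ∈ range K, bz (i + 1) s =
      ∑ i ∈ range K, ((i + 1 : ℕ) : ℂ) ^ (-s) - (((K : ℝ) + 1 : ℝ) : ℂ) ^ (-s + 1) / (-s + 1) +
        1 / (-s + 1) := by
  have hne : -s + 1 ≠ 0 := by
    intro h
    apply hs1
    linear_combination -h
  have h3 : ∑ k ∈ range K, ∫ x in ((k : ℝ) + 1)..(((k + 1 : ℕ) : ℝ) + 1), (x : ℂ) ^ (-s) =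
      ∫ x in (((0 : ℕ) : ℝ) + 1)..((K : ℝ) + 1), (x : ℂ) ^ (-s) := by
    refine intervalIntegral.sum_integral_adjacent_intervals (a := fun k : ℕ => (k : ℝ) + 1) ?_
    intro k _
    apply intervalIntegral.intervalIntegrable_cpow
    right
    rw [Set.mem_uIcc]
    push_cast
    intro h
    rcases h with h | h <;> linarith [(Nat.cast_nonneg k : (0 : ℝ) ≤ k)]
  have h4 : ∫ x in (((0 : ℕ) : ℝ) + 1)..((K : ℝ) + 1), (x : ℂ) ^ (-s) =
      ((((K : ℝ) + 1 : ℝ) : ℂ) ^ (-s + 1) - (((((0 : ℕ) : ℝ) + 1 : ℝ)) : ℂ) ^ (-s + 1)) / (-s + 1) := by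
    apply integral_cpow
    right
    refine ⟨?_, ?_⟩
    · intro h
      apply hs1
      linear_combination -h
    · rw [Set.mem_uIcc]
      push_cast
      intro h
      rcases h with h | h <;> linarith [(Nat.cast_nonneg K : (0 : ℝ) ≤ K)]
  have h5 : (((((0 : ℕ) : ℝ) + 1 : ℝ)) : ℂ) ^ (-s + 1) = 1 := by
    push_cast
    rw [zero_add, Complex.one_cpow]
  rw [h5] at h4
  have h6 : ∑ i ∈ range K, bz (i + 1) s = ∑ i ∈ range K, ((i + 1 : ℕ) : ℂ) ^ (-s) -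
      ∑ k ∈ range K, ∫ x in ((k : ℝ) + 1)..(((k + 1 : ℕ) : ℝ) + 1), (x : ℂ) ^ (-s) := by
    rw [← Finset.sum_sub_distrib]
    refine Finset.sum_congr rfl fun i _ => ?_
    unfold bz
    congr 1
    push_cast
    rfl
  rw [h6, h3, h4]
  field_simp
  ring

private theorem FZ_step (σ : ℝ) (hσ : 0 < σ) (k : ℕ) (hk : 1 ≤ k) :
    (((k + 1 : ℕ)) : ℝ) ^ (-σ - 1) ≤ (1 / σ) * ((k : ℝ) ^ (-σ) - (((k + 1 : ℕ)) : ℝ) ^ (-σ)) := by
  have hk0 : (0 : ℝ) < k := by exact_mod_cast hk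
  have hk1 : (0 : ℝ) < ((k + 1 : ℕ) : ℝ) := by positivity
  set x : ℝ := ((k + 1 : ℕ) : ℝ) with hx
  have hxk : (k : ℝ) = x - 1 := by rw [hx]; push_cast; ring
  have h1 : (k : ℝ) ^ (-σ) = x ^ (-σ) * (k / x : ℝ) ^ (-σ) := by
    rw [← Real.mul_rpow hk1.le (by positivity)]
    congr 1
    field_simp
  have h2 : 1 + σ / x ≤ (k / x : ℝ) ^ (-σ) := by
    rw [Real.rpow_def_of_pos (by positivity)]
    have h3 : Real.log (k / x) ≤ k / x - 1 := Real.log_le_sub_one_of_pos (by positivity)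
    have h4 : (k : ℝ) / x - 1 = -(1 / x) := by
      rw [hxk]; field_simp; ring
    rw [h4] at h3
    have h5 := Real.add_one_le_exp (Real.log (k / x) * -σ)
    have h6 : σ / x ≤ Real.log (k / x) * -σ := by
      have : (1 / x) * σ ≤ -Real.log (k / x) * σ := mul_le_mul_of_nonneg_right (by linarith) hσ.le
      calc σ / x = (1 / x) * σ := by ring
        _ ≤ -Real.log (k / x) * σ := this
        _ = _ := by ring
    linarith
  have h7 : x ^ (-σ - 1) = x ^ (-σ) / x := by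
    rw [Real.rpow_sub hk1, Real.rpow_one]
  have h8 : 0 < x ^ (-σ) := Real.rpow_pos_of_pos hk1 _
  rw [h1, h7]
  have h9 : x ^ (-σ) * (1 + σ / x) ≤ x ^ (-σ) * (k / x : ℝ) ^ (-σ) := mul_le_mul_of_nonneg_left h2 h8.le
  have h10 : x ^ (-σ) * (1 + σ / x) - x ^ (-σ) = σ * (x ^ (-σ) / x) := by ring
  calc x ^ (-σ) / x = (1 / σ) * (σ * (x ^ (-σ) / x)) := by field_simp
    _ ≤ (1 / σ) * (x ^ (-σ) * (k / x : ℝ) ^ (-σ) - x ^ (-σ)) := by
        apply mul_le_mul_of_nonneg_left _ (by positivity)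
        linarith

private theorem FZ_Icc (f : ℕ → ℂ) (M : ℕ) :
    ∑ k ∈ Finset.Icc 1 M, f k = ∑ i ∈ Finset.range M, f (i + 1) := by
  induction M with
  | zero => simp
  | succ M ih => rw [Finset.sum_Icc_succ_top (by omega), ih, Finset.sum_range_succ]

open Finset Pool.Agent.Lib.MP_9c2ea5_nt.An in
theorem zeta_sum (s : ℂ) (hs : 0 < s.re) (hs1 : s ≠ 1) (N : ℕ) (hN : 1 ≤ N) :
    ‖riemannZeta s - ∑ n ∈ Finset.Icc 1 N, (n : ℂ) ^ (-s) - ((N : ℂ) + 1) ^ (1 - s) / (s - 1)‖ ≤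
      ‖s‖ / s.re * (N : ℝ) ^ (-s.re) := by
  have hsumm : Summable (fun n : ℕ => (((n + 1 : ℕ)) : ℝ) ^ (-s.re - 1)) := by
    have h1 : Summable (fun n : ℕ => ((n : ℝ)) ^ (-s.re - 1)) :=
      Real.summable_nat_rpow.2 (by linarith)
    exact (summable_nat_add_iff 1).2 h1
  have hsn : Summable (fun n : ℕ => ‖bz (n + 1) s‖) :=
    Summable.of_nonneg_of_le (fun _ => norm_nonneg _)
      (fun n => bz_norm2 (n + 1) (by omega) s hs) (hsumm.mul_left _)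
  have hs' : Summable (fun n : ℕ => bz (n + 1) s) := hsn.of_norm
  have h0 := (zeta0_eq s hs).tsum_eq
  rw [← hs'.sum_add_tsum_nat_add N] at h0
  have hkey : riemannZeta s - ∑ n ∈ Finset.Icc 1 N, (n : ℂ) ^ (-s) -
      ((N : ℂ) + 1) ^ (1 - s) / (s - 1) = ∑' i : ℕ, bz (i + N + 1) s := by
    have hc : (((N : ℝ) + 1 : ℝ) : ℂ) ^ (-s + 1) = ((N : ℂ) + 1) ^ (1 - s) := by
      push_cast
      congr 1
      ring
    rw [FZ_partial s hs1 N, hc] at h0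
    rw [FZ_Icc, riemannZeta_eq_inv_sub_add hs1, ← h0]
    have hne2 : s - 1 ≠ 0 := sub_ne_zero.2 hs1
    have : (-s + 1) = -(s - 1) := by ring
    rw [this]
    field_simp
    ring
  rw [hkey]
  have hsn2 : Summable (fun i : ℕ => ‖bz (i + N + 1) s‖) := by
    have := (summable_nat_add_iff N).2 hsn
    exact this
  refine le_trans (norm_tsum_le_tsum_norm hsn2) ?_
  apply Real.tsum_le_of_sum_range_le (fun _ => norm_nonneg _)
  intro K
  have h1 : ∀ i ∈ range K, ‖bz (i + N + 1) s‖ ≤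
      (‖s‖ / s.re) * (((i + N : ℕ) : ℝ) ^ (-s.re) - ((i + 1 + N : ℕ) : ℝ) ^ (-s.re)) := by
    intro i _
    have h2 := bz_norm2 (i + N + 1) (by omega) s hs
    have h3 := FZ_step s.re hs (i + N) (by omega)
    have h4 : i + 1 + N = i + N + 1 := by ring
    rw [h4]
    refine le_trans h2 (le_trans (mul_le_mul_of_nonneg_left h3 (norm_nonneg s)) (le_of_eq ?_))
    ring
  refine le_trans (Finset.sum_le_sum h1) ?_
  rw [← Finset.mul_sum]
  have h5 : ∑ i ∈ range K, (((i + N : ℕ) : ℝ) ^ (-s.re) - ((i + 1 + N : ℕ) : ℝ) ^ (-s.re)) =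
      ((0 + N : ℕ) : ℝ) ^ (-s.re) - ((K + N : ℕ) : ℝ) ^ (-s.re) :=
    Finset.sum_range_sub' (fun i : ℕ => ((i + N : ℕ) : ℝ) ^ (-s.re)) K
  rw [h5, zero_add]
  apply mul_le_mul_of_nonneg_left _ (by positivity)
  have : (0 : ℝ) ≤ ((K + N : ℕ) : ℝ) ^ (-s.re) := Real.rpow_nonneg (Nat.cast_nonneg _) _
  linarith

end Pool.Agent.Lib.MP_ec260d_ntD
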