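import Mathlib

/-!
# Definition: typical behaviour of zeta near `1 + iu`
-/

namespace Pool.Agent.Lib.MP_ec260d_ntD

open Complex

/-- zeta is neither large nor small near `1 + iu` (bounds by powers of `l`) -/
def FarOK (η l u : ℝ) : Prop :=
  ∀ u' s : ℝ, |u' - u| ≤ 1 / 50 → 0 < s → s ≤ 1 / 50 →
    ‖riemannZeta (((1 + s : ℝ) : ℂ) + u' * I)‖ ≤ l ^ η ∧
    l ^ (-η) ≤ ‖riemannZeta (((1 + s : ℝ) : ℂ) + u' * I)‖ ∧
    ‖deriv riemannZeta (((1 + s : ℝ) : ℂ) + u' * I)‖ ≤ l ^ η * ‖riemannZeta (((1 + s : ℝ) : ℂ) + u' * I)‖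

end Pool.Agent.Lib.MP_ec260d_ntD
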