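import Mathlib
import Pool.Agent.Lib.MP_ec260d_ntB.BMean

/-!
# JOB F/FDisc: from mean squares on lines to suprema on discs (about 150 lines)

`r = 1/30`. For `u ∈ [u₁, u₂]` and `‖z - (1 + i u)‖ ≤ 1/15` the square with centre `z` and half side `r` is contained in `[9/10, 11/10] × [u - 1/10, u + 1/10]`. Apply `area_mean` (Lib/MP_ec260d_ntB/BMean.lean; boxes `bx`, `BI`, `CB` in BBox.lean) to the function `g ^ 2`:
`π r² ‖g z‖² ≤ ∫ over the square of ‖g‖² ≤ Φ u := ∫ b in 9/10..11/10, ∫ t in u - 1/10..u + 1/10, ‖g (b + i t)‖²` (integral over the box, in whatever form is convenient).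
So the set in question is contained in `{u ∈ [u₁, u₂] | π A²/900 ≤ Φ u}`. By Markov (`mul_meas_ge_le_lintegral₀` or `meas_ge_le_mul_integral`; `Φ` is continuous or at least measurable: `lintegral` version with Tonelli is the easiest) the measure is at most `900/(π A²) ∫_{u₁}^{u₂} Φ`,
and by Tonelli `∫_{u₁}^{u₂} Φ ≤ (1/5) ∫ b in 9/10..11/10, ∫ t in u₁ - 1/10..u₂ + 1/10, ‖g‖² ≤ (1/5) (1/5) Q` (for fixed `t` the set of `u` with `|t - u| ≤ 1/10` has measure `1/5`). `900/(25 π) ≤ 12`.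
-/

namespace Pool.Agent.Lib.MP_ec260d_ntD

open Complex MeasureTheory Set

/-- the square of the modulus of `g` on the large box -/
private noncomputable def FDiscF (g : ℂ → ℂ) (u₁ u₂ : ℝ) : ℝ × ℝ → ENNReal :=
  (MP_ec260d_ntB.bx (9 / 10) (11 / 10) (u₁ - 1) (u₂ + 1)).indicator
    (fun z => ENNReal.ofReal (‖g (MP_ec260d_ntB.pt z)‖ ^ 2))

private theorem FDisc_cont (g : ℂ → ℂ) (u₁ u₂ : ℝ)
    (hg : ∀ s : ℂ, 9 / 10 ≤ s.re → s.re ≤ 11 / 10 → u₁ - 1 ≤ s.im → s.im ≤ u₂ + 1 → DifferentiableAt ℂ g s) :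
    ContinuousOn (fun z => ‖g (MP_ec260d_ntB.pt z)‖ ^ 2)
      (MP_ec260d_ntB.bx (9 / 10) (11 / 10) (u₁ - 1) (u₂ + 1)) := by
  intro z hz
  have h1 : DifferentiableAt ℂ g (MP_ec260d_ntB.pt z) := by
    apply hg
    · rw [MP_ec260d_ntB.pt_re]
      exact hz.1.1
    · rw [MP_ec260d_ntB.pt_re]
      exact hz.1.2
    · rw [MP_ec260d_ntB.pt_im]
      exact hz.2.1
    · rw [MP_ec260d_ntB.pt_im]
      exact hz.2.2
  have h2 : ContinuousAt (fun z => g (MP_ec260d_ntB.pt z)) z :=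
    ContinuousAt.comp (g := g) (f := MP_ec260d_ntB.pt) h1.continuousAt MP_ec260d_ntB.pt_cont.continuousAt
  exact (h2.norm.pow 2).continuousWithinAt

private theorem FDisc_meas (g : ℂ → ℂ) (u₁ u₂ : ℝ)
    (hg : ∀ s : ℂ, 9 / 10 ≤ s.re → s.re ≤ 11 / 10 → u₁ - 1 ≤ s.im → s.im ≤ u₂ + 1 → DifferentiableAt ℂ g s) :
    Measurable (FDiscF g u₁ u₂) := by
  classical
  have h1 : ContinuousOn (fun z => ENNReal.ofReal (‖g (MP_ec260d_ntB.pt z)‖ ^ 2))
      (MP_ec260d_ntB.bx (9 / 10) (11 / 10) (u₁ - 1) (u₂ + 1)) :=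
    ENNReal.continuous_ofReal.comp_continuousOn (FDisc_cont g u₁ u₂ hg)
  have h2 := h1.measurable_piecewise (g := fun _ => (0 : ENNReal)) continuousOn_const
    (MP_ec260d_ntB.bx_meas _ _ _ _)
  have h3 : (MP_ec260d_ntB.bx (9 / 10) (11 / 10) (u₁ - 1) (u₂ + 1)).piecewise
      (fun z => ENNReal.ofReal (‖g (MP_ec260d_ntB.pt z)‖ ^ 2)) (fun _ => (0 : ENNReal)) = FDiscF g u₁ u₂ := by
    unfold FDiscF
    exact Set.piecewise_eq_indicator
  rw [h3] at h2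
  exact h2

/-- the total integral -/
private theorem FDisc_total (g : ℂ → ℂ) (u₁ u₂ Q : ℝ) (h12 : u₁ ≤ u₂)
    (hg : ∀ s : ℂ, 9 / 10 ≤ s.re → s.re ≤ 11 / 10 → u₁ - 1 ≤ s.im → s.im ≤ u₂ + 1 → DifferentiableAt ℂ g s)
    (hq : ∀ b : ℝ, 9 / 10 ≤ b → b ≤ 11 / 10 → ∫ t in (u₁ - 1)..(u₂ + 1), ‖g ((b : ℂ) + t * I)‖ ^ 2 ≤ Q) :
    ∫⁻ z, FDiscF g u₁ u₂ z ≤ ENNReal.ofReal (1 / 5) * ENNReal.ofReal Q := by
  have hm := FDisc_meas g u₁ u₂ hg
  rw [Measure.volume_eq_prod, lintegral_prod _ hm.aemeasurable]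
  have h1 : ∀ x : ℝ, ∫⁻ t, FDiscF g u₁ u₂ (x, t) ≤
      (Icc (9 / 10 : ℝ) (11 / 10)).indicator (fun _ => ENNReal.ofReal Q) x := by
    intro x
    by_cases hx : x ∈ Icc (9 / 10 : ℝ) (11 / 10)
    · rw [indicator_of_mem hx]
      have e1 : ∀ t : ℝ, FDiscF g u₁ u₂ (x, t) = (Icc (u₁ - 1) (u₂ + 1)).indicator
          (fun t : ℝ => ENNReal.ofReal (‖g ((x : ℂ) + t * I)‖ ^ 2)) t := by
        intro t
        unfold FDiscF
        by_cases ht : t ∈ Icc (u₁ - 1) (u₂ + 1)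
        · rw [indicator_of_mem ht, indicator_of_mem (show (x, t) ∈ MP_ec260d_ntB.bx (9 / 10) (11 / 10) (u₁ - 1) (u₂ + 1) from ⟨hx, ht⟩)]
          rfl
        · rw [indicator_of_notMem ht, indicator_of_notMem (fun h => ht h.2)]
      simp only [e1]
      rw [lintegral_indicator measurableSet_Icc]
      have hc : ContinuousOn (fun t : ℝ => ‖g ((x : ℂ) + t * I)‖ ^ 2) (Icc (u₁ - 1) (u₂ + 1)) := by
        intro t ht
        have h1 : DifferentiableAt ℂ g ((x : ℂ) + t * I) := by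
          apply hg
          · simp
            have := hx.1
            linarith
          · simp
            have := hx.2
            linarith
          · simp
            have := ht.1
            linarith
          · simp
            have := ht.2
            linarith
        have h3 : ContinuousAt (fun t : ℝ => (x : ℂ) + t * I) t := by fun_prop
        have h2 : ContinuousAt (fun t : ℝ => g ((x : ℂ) + t * I)) t :=
          ContinuousAt.comp (g := g) (f := fun t : ℝ => (x : ℂ) + t * I) h1.continuousAt h3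
        exact (h2.norm.pow 2).continuousWithinAt
      have hi : IntegrableOn (fun t : ℝ => ‖g ((x : ℂ) + t * I)‖ ^ 2) (Icc (u₁ - 1) (u₂ + 1)) :=
        hc.integrableOn_compact isCompact_Icc
      rw [← ofReal_integral_eq_lintegral_ofReal hi (Filter.Eventually.of_forall fun t => by positivity)]
      apply ENNReal.ofReal_le_ofReal
      have h4 := hq x hx.1 hx.2
      rw [intervalIntegral.integral_of_le (by linarith)] at h4
      rw [integral_Icc_eq_integral_Ioc]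
      exact h4
    · rw [indicator_of_notMem hx]
      have e1 : ∀ t : ℝ, FDiscF g u₁ u₂ (x, t) = 0 := by
        intro t
        unfold FDiscF
        rw [indicator_of_notMem (fun h => hx h.1)]
      simp only [e1, lintegral_zero]
      exact le_refl _
  refine (lintegral_mono h1).trans ?_
  rw [lintegral_indicator measurableSet_Icc, lintegral_const, Measure.restrict_apply MeasurableSet.univ,
    univ_inter, Real.volume_Icc, mul_comm]
  have e2 : (11 / 10 - 9 / 10 : ℝ) = 1 / 5 := by norm_num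
  rw [e2]

/-- the local integral -/
private noncomputable def FDiscP (g : ℂ → ℂ) (u₁ u₂ u : ℝ) : ENNReal :=
  ∫⁻ z, {z : ℝ × ℝ | |z.2 - u| ≤ 1 / 10}.indicator (FDiscF g u₁ u₂) z

private theorem FDisc_low (g : ℂ → ℂ) (u₁ u₂ A u : ℝ) (hA : 0 < A)
    (hg : ∀ s : ℂ, 9 / 10 ≤ s.re → s.re ≤ 11 / 10 → u₁ - 1 ≤ s.im → s.im ≤ u₂ + 1 → DifferentiableAt ℂ g s)
    (hu : u ∈ Icc u₁ u₂) (c : ℂ) (hc : ‖c - (1 + u * I)‖ ≤ 1 / 15) (hAc : A < ‖g c‖) :
    ENNReal.ofReal (Real.pi * (1 / 30) ^ 2 * A ^ 2) ≤ FDiscP g u₁ u₂ u := by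
  have hre := (Complex.abs_re_le_norm (c - (1 + u * I))).trans hc
  have him := (Complex.abs_im_le_norm (c - (1 + u * I))).trans hc
  have e1 : (c - (1 + u * I)).re = c.re - 1 := by simp
  have e2 : (c - (1 + u * I)).im = c.im - u := by simp
  rw [e1, abs_le] at hre
  rw [e2, abs_le] at him
  have hu1 := hu.1
  have hu2 := hu.2
  have hbox : MP_ec260d_ntB.bx (c.re - 1 / 30) (c.re + 1 / 30) (c.im - 1 / 30) (c.im + 1 / 30) ⊆
      MP_ec260d_ntB.bx (9 / 10) (11 / 10) (u₁ - 1) (u₂ + 1) := by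
    apply MP_ec260d_ntB.bx_mono <;> linarith
  have hd : ∀ s ∈ MP_ec260d_ntB.CB (c.re - 1 / 30) (c.re + 1 / 30) (c.im - 1 / 30) (c.im + 1 / 30),
      DifferentiableAt ℂ (fun s => g s ^ 2) s := by
    intro s hs
    obtain ⟨s1, s2, s3, s4⟩ := hs
    have h1 : DifferentiableAt ℂ g s := by
      apply hg <;> linarith
    exact h1.pow 2
  have key := MP_ec260d_ntB.area_mean (fun s => g s ^ 2) c (1 / 30) (by norm_num) hd
  have h1 : Real.pi * (1 / 30) ^ 2 * A ^ 2 ≤ Real.pi * (1 / 30) ^ 2 * ‖g c ^ 2‖ := by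
    apply mul_le_mul_of_nonneg_left _ (by positivity)
    rw [norm_pow]
    exact pow_le_pow_left₀ hA.le hAc.le 2
  have h2 := h1.trans key
  refine (ENNReal.ofReal_le_ofReal h2).trans ?_
  unfold MP_ec260d_ntB.BI
  have hcn : ContinuousOn (fun z => ‖g (MP_ec260d_ntB.pt z) ^ 2‖)
      (MP_ec260d_ntB.bx (c.re - 1 / 30) (c.re + 1 / 30) (c.im - 1 / 30) (c.im + 1 / 30)) := by
    have h3 := (FDisc_cont g u₁ u₂ hg).mono hbox
    refine h3.congr ?_
    intro z _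
    exact norm_pow _ _
  have hi := hcn.integrableOn_compact (μ := volume) (MP_ec260d_ntB.bx_compact _ _ _ _)
  rw [ofReal_integral_eq_lintegral_ofReal hi (Filter.Eventually.of_forall fun z => norm_nonneg _),
    ← lintegral_indicator (MP_ec260d_ntB.bx_meas _ _ _ _)]
  unfold FDiscP
  apply lintegral_mono
  intro z
  by_cases hz : z ∈ MP_ec260d_ntB.bx (c.re - 1 / 30) (c.re + 1 / 30) (c.im - 1 / 30) (c.im + 1 / 30)
  · have hz2 : z ∈ {z : ℝ × ℝ | |z.2 - u| ≤ 1 / 10} := by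
      have a1 := hz.2.1
      have a2 := hz.2.2
      change |z.2 - u| ≤ 1 / 10
      rw [abs_le]
      constructor
      · linarith
      · linarith
    beta_reduce
    rw [indicator_of_mem hz, indicator_of_mem hz2]
    unfold FDiscF
    rw [indicator_of_mem (hbox hz), norm_pow]
  · beta_reduce
    rw [indicator_of_notMem hz]
    exact zero_le

private theorem FDisc_mean (g : ℂ → ℂ) (u₁ u₂ : ℝ)
    (hg : ∀ s : ℂ, 9 / 10 ≤ s.re → s.re ≤ 11 / 10 → u₁ - 1 ≤ s.im → s.im ≤ u₂ + 1 → DifferentiableAt ℂ g s) :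
    Measurable (FDiscP g u₁ u₂) ∧
    ∫⁻ u, FDiscP g u₁ u₂ u ≤ ENNReal.ofReal (1 / 5) * ∫⁻ z, FDiscF g u₁ u₂ z := by
  have hm := FDisc_meas g u₁ u₂ hg
  have hset : MeasurableSet {w : ℝ × (ℝ × ℝ) | |w.2.2 - w.1| ≤ 1 / 10} :=
    (isClosed_le (by fun_prop) continuous_const).measurableSet
  have hj : Measurable (fun w : ℝ × (ℝ × ℝ) =>
      {w : ℝ × (ℝ × ℝ) | |w.2.2 - w.1| ≤ 1 / 10}.indicator (fun w => FDiscF g u₁ u₂ w.2) w) :=
    (hm.comp measurable_snd).indicator hset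
  have e : ∀ (u : ℝ) (z : ℝ × ℝ), {z : ℝ × ℝ | |z.2 - u| ≤ 1 / 10}.indicator (FDiscF g u₁ u₂) z =
      {w : ℝ × (ℝ × ℝ) | |w.2.2 - w.1| ≤ 1 / 10}.indicator (fun w => FDiscF g u₁ u₂ w.2) (u, z) := by
    intro u z
    by_cases h : |z.2 - u| ≤ 1 / 10
    · rw [indicator_of_mem (show z ∈ {z : ℝ × ℝ | |z.2 - u| ≤ 1 / 10} from h),
        indicator_of_mem (show (u, z) ∈ {w : ℝ × (ℝ × ℝ) | |w.2.2 - w.1| ≤ 1 / 10} from h)]
    · rw [indicator_of_notMem (show z ∉ {z : ℝ × ℝ | |z.2 - u| ≤ 1 / 10} from h),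
        indicator_of_notMem (show (u, z) ∉ {w : ℝ × (ℝ × ℝ) | |w.2.2 - w.1| ≤ 1 / 10} from h)]
  have eP : FDiscP g u₁ u₂ = fun u => ∫⁻ z, {w : ℝ × (ℝ × ℝ) | |w.2.2 - w.1| ≤ 1 / 10}.indicator
      (fun w => FDiscF g u₁ u₂ w.2) (u, z) := by
    funext u
    unfold FDiscP
    exact lintegral_congr fun z => e u z
  refine ⟨?_, ?_⟩
  · rw [eP]
    exact hj.lintegral_prod_right'
  · rw [eP]
    rw [lintegral_lintegral_swap hj.aemeasurable, ← lintegral_const_mul _ hm]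
    apply lintegral_mono
    intro z
    have h1 : (fun u : ℝ => {w : ℝ × (ℝ × ℝ) | |w.2.2 - w.1| ≤ 1 / 10}.indicator
        (fun w => FDiscF g u₁ u₂ w.2) (u, z)) =
        (Icc (z.2 - 1 / 10) (z.2 + 1 / 10)).indicator (fun _ => FDiscF g u₁ u₂ z) := by
      funext u
      by_cases h : |z.2 - u| ≤ 1 / 10
      · have h2 : u ∈ Icc (z.2 - 1 / 10) (z.2 + 1 / 10) := by
          rw [abs_le] at h
          exact ⟨by linarith [h.2], by linarith [h.1]⟩
        rw [indicator_of_mem h2,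
          indicator_of_mem (show (u, z) ∈ {w : ℝ × (ℝ × ℝ) | |w.2.2 - w.1| ≤ 1 / 10} from h)]
      · have h2 : u ∉ Icc (z.2 - 1 / 10) (z.2 + 1 / 10) := by
          intro h3
          apply h
          rw [abs_le]
          exact ⟨by linarith [h3.2], by linarith [h3.1]⟩
        rw [indicator_of_notMem h2,
          indicator_of_notMem (show (u, z) ∉ {w : ℝ × (ℝ × ℝ) | |w.2.2 - w.1| ≤ 1 / 10} from h)]
    beta_reduce
    rw [h1, lintegral_indicator measurableSet_Icc, lintegral_const, Measure.restrict_apply MeasurableSet.univ,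
      univ_inter, Real.volume_Icc]
    have e2 : (z.2 + 1 / 10 - (z.2 - 1 / 10) : ℝ) = 1 / 5 := by ring
    rw [e2, mul_comm]

theorem disc_sup (g : ℂ → ℂ) (u₁ u₂ Q A : ℝ) (h12 : u₁ ≤ u₂) (hQ : 0 ≤ Q) (hA : 0 < A)
    (hg : ∀ s : ℂ, 9 / 10 ≤ s.re → s.re ≤ 11 / 10 → u₁ - 1 ≤ s.im → s.im ≤ u₂ + 1 → DifferentiableAt ℂ g s)
    (hq : ∀ b : ℝ, 9 / 10 ≤ b → b ≤ 11 / 10 → ∫ t in (u₁ - 1)..(u₂ + 1), ‖g ((b : ℂ) + t * I)‖ ^ 2 ≤ Q) :
    volume {u : ℝ | u ∈ Icc u₁ u₂ ∧ ∃ z : ℂ, ‖z - (1 + u * I)‖ ≤ 1 / 15 ∧ A < ‖g z‖} ≤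
      ENNReal.ofReal (12 * Q / A ^ 2) := by
  obtain ⟨hPm, hPi⟩ := FDisc_mean g u₁ u₂ hg
  have hT := FDisc_total g u₁ u₂ Q h12 hg hq
  have hpi := Real.pi_gt_three
  set ε : ENNReal := ENNReal.ofReal (Real.pi * (1 / 30) ^ 2 * A ^ 2) with hε
  have hsub : {u : ℝ | u ∈ Icc u₁ u₂ ∧ ∃ z : ℂ, ‖z - (1 + u * I)‖ ≤ 1 / 15 ∧ A < ‖g z‖} ⊆
      {u : ℝ | ε ≤ FDiscP g u₁ u₂ u} := by
    rintro u ⟨hu, c, hc, hAc⟩
    exact FDisc_low g u₁ u₂ A u hA hg hu c hc hAc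
  refine (measure_mono hsub).trans ?_
  have hM : ε * volume {u : ℝ | ε ≤ FDiscP g u₁ u₂ u} ≤ ∫⁻ u, FDiscP g u₁ u₂ u :=
    mul_meas_ge_le_lintegral hPm ε
  have hε0 : 0 < Real.pi * (1 / 30) ^ 2 * A ^ 2 := by positivity
  have hall : ∫⁻ u, FDiscP g u₁ u₂ u ≤ ENNReal.ofReal (1 / 25 * Q) := by
    refine hPi.trans ?_
    refine (mul_le_mul_right hT _).trans ?_
    rw [← ENNReal.ofReal_mul (by norm_num), ← ENNReal.ofReal_mul (by norm_num)]
    apply ENNReal.ofReal_le_ofReal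
    linarith
  have h5 := hM.trans hall
  have hε1 : ε ≠ 0 := by
    rw [hε]
    exact (ENNReal.ofReal_pos.2 hε0).ne'
  have hε2 : ε ≠ ⊤ := ENNReal.ofReal_ne_top
  have h6 : volume {u : ℝ | ε ≤ FDiscP g u₁ u₂ u} ≤ ENNReal.ofReal (1 / 25 * Q) / ε := by
    rw [ENNReal.le_div_iff_mul_le (Or.inl hε1) (Or.inl hε2), mul_comm]
    exact h5
  refine h6.trans ?_
  rw [hε, ← ENNReal.ofReal_div_of_pos hε0]
  apply ENNReal.ofReal_le_ofReal
  rw [div_le_div_iff₀ hε0 (by positivity)]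
  have h7 : 0 ≤ Q * A ^ 2 := by positivity
  nlinarith

end Pool.Agent.Lib.MP_ec260d_ntD
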