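import Mathlib

/-!
# JOB F/FConv: zeta times the truncated inverse (about 130 lines)

`conv_eq`: expand the product (`Finset.sum_mul_sum`), group by `n = m d` (`m ≤ N`, `d ≤ X`, so `n ≤ N X`): `n ^ (-s) = m ^ (-s) d ^ (-s)` for natural numbers (`Nat.cast_mul`, `Complex.natCast_mul_natCast_cpow` or `Complex.mul_cpow_ofReal_nonneg`); for fixed `n` the pairs `(m, d)` with `m d = n` correspond to the divisors `d` of `n` with `m = n / d`.
`cf_one`: the only divisor of 1 is 1. `cf_zero`: for `1 < n ≤ X ≤ N` all divisors `d` of `n` satisfy `d ≤ X` and `n / d ≤ N`, so `cf X N n = ∑_{d ∣ n} μ d = 0` (`ArithmeticFunction.moebius_mul_coe_zeta`, or `ArithmeticFunction.sum_moebius...`). `cf_le`: `|μ d| ≤ 1` (`ArithmeticFunction.abs_moebius_le_one`).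
`Mx_norm`, `Mx_deriv`: `‖d ^ (-s)‖ = d ^ (-Re s) ≤ 1` for `Re s ≥ 0`, `‖log d‖ ≤ log X ≤ X`.
-/

namespace Pool.Agent.Lib.MP_ec260d_ntD

open Complex

noncomputable section

/-- the truncated inverse of zeta -/
def Mx (X : ℕ) (s : ℂ) : ℂ := ∑ d ∈ Finset.Icc 1 X, ((ArithmeticFunction.moebius d : ℤ) : ℂ) * (d : ℂ) ^ (-s)

/-- coefficients of the product of a finite sum of zeta and the truncated inverse -/
def cf (X N n : ℕ) : ℝ :=
  ∑ d ∈ n.divisors.filter (fun d => d ≤ X ∧ n / d ≤ N), ((ArithmeticFunction.moebius d : ℤ) : ℝ)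

theorem conv_eq (X N : ℕ) (s : ℂ) :
    (∑ n ∈ Finset.Icc 1 N, (n : ℂ) ^ (-s)) * Mx X s =
      ∑ n ∈ Finset.Icc 1 (N * X), (cf X N n : ℂ) * (n : ℂ) ^ (-s) := by
  classical
  have h1 : ∑ n ∈ Finset.Icc 1 (N * X), (cf X N n : ℂ) * (n : ℂ) ^ (-s) =
      ∑ n ∈ Finset.Icc 1 (N * X), ∑ d ∈ n.divisors.filter (fun d => d ≤ X ∧ n / d ≤ N),
        ((ArithmeticFunction.moebius d : ℤ) : ℂ) * (n : ℂ) ^ (-s) := by
    refine Finset.sum_congr rfl fun n _ => ?_
    unfold cf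
    push_cast
    rw [Finset.sum_mul]
  have h2 : ∑ n ∈ Finset.Icc 1 (N * X), ∑ d ∈ n.divisors.filter (fun d => d ≤ X ∧ n / d ≤ N),
        ((ArithmeticFunction.moebius d : ℤ) : ℂ) * (n : ℂ) ^ (-s) =
      ∑ d ∈ Finset.Icc 1 X, ∑ n ∈ (Finset.Icc 1 (N * X)).filter (fun n => d ∣ n ∧ n / d ≤ N),
        ((ArithmeticFunction.moebius d : ℤ) : ℂ) * (n : ℂ) ^ (-s) := by
    refine Finset.sum_comm' ?_
    intro n d
    simp only [Finset.mem_filter, Finset.mem_Icc, Nat.mem_divisors]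
    constructor
    · rintro ⟨⟨h1, h2⟩, ⟨h3, h4⟩, h5, h6⟩
      exact ⟨⟨⟨h1, h2⟩, h3, h6⟩, Nat.pos_of_dvd_of_pos h3 h1, h5⟩
    · rintro ⟨⟨⟨h1, h2⟩, h3, h6⟩, h7, h5⟩
      exact ⟨⟨h1, h2⟩, ⟨h3, by omega⟩, h5, h6⟩
  rw [h1, h2, Mx, Finset.sum_mul_sum, Finset.sum_comm]
  refine Finset.sum_congr rfl fun d hd => ?_
  rw [Finset.mem_Icc] at hd
  symm
  refine Finset.sum_nbij' (fun n => n / d) (fun k => k * d) ?_ ?_ ?_ ?_ ?_
  · intro n hn
    simp only [Finset.mem_filter, Finset.mem_Icc] at hn ⊢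
    obtain ⟨⟨h3, h4⟩, h5, h6⟩ := hn
    exact ⟨Nat.div_pos (Nat.le_of_dvd h3 h5) hd.1, h6⟩
  · intro k hk
    simp only [Finset.mem_filter, Finset.mem_Icc] at hk ⊢
    refine ⟨⟨Nat.mul_pos hk.1 hd.1, Nat.mul_le_mul hk.2 hd.2⟩, Dvd.intro_left k rfl, ?_⟩
    rw [Nat.mul_div_cancel _ hd.1]
    exact hk.2
  · intro n hn
    simp only [Finset.mem_filter, Finset.mem_Icc] at hn
    exact Nat.div_mul_cancel hn.2.1
  · intro k _
    exact Nat.mul_div_cancel _ hd.1
  · intro n hn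
    simp only [Finset.mem_filter, Finset.mem_Icc] at hn
    have h3 : (n : ℂ) = ((n / d : ℕ) : ℂ) * (d : ℂ) := by
      rw [← Nat.cast_mul, Nat.div_mul_cancel hn.2.1]
    rw [h3, Complex.natCast_mul_natCast_cpow]
    ring

theorem cf_one {X N : ℕ} (hX : 1 ≤ X) (hN : 1 ≤ N) : cf X N 1 = 1 := by
  unfold cf
  rw [Nat.divisors_one, Finset.filter_true_of_mem, Finset.sum_singleton]
  · simp
  · intro d hd
    rw [Finset.mem_singleton] at hd
    subst hd
    exact ⟨hX, by simpa using hN⟩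

theorem cf_zero {X N n : ℕ} (hXN : X ≤ N) (h1 : 1 < n) (hn : n ≤ X) : cf X N n = 0 := by
  unfold cf
  rw [Finset.filter_true_of_mem]
  · have h2 : (ArithmeticFunction.moebius * (ArithmeticFunction.zeta : ArithmeticFunction ℤ)) n = 0 := by
      rw [ArithmeticFunction.moebius_mul_coe_zeta, ArithmeticFunction.one_apply_ne (by omega)]
    rw [ArithmeticFunction.coe_mul_zeta_apply] at h2
    have h3 := congrArg (fun z : ℤ => (z : ℝ)) h2
    push_cast at h3
    exact h3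
  · intro d hd
    have h2 := Nat.divisor_le hd
    exact ⟨h2.trans hn, (Nat.div_le_self n d).trans (hn.trans hXN)⟩

theorem cf_le (X N n : ℕ) : |cf X N n| ≤ n.divisors.card := by
  unfold cf
  refine (Finset.abs_sum_le_sum_abs _ _).trans ?_
  refine (Finset.sum_le_card_nsmul _ _ 1 ?_).trans ?_
  · intro d _
    have h := ArithmeticFunction.abs_moebius_le_one (n := d)
    exact_mod_cast h
  · rw [nsmul_eq_mul, mul_one]
    exact_mod_cast Finset.card_filter_le _ _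

private theorem FConv_hd (X : ℕ) (s : ℂ) : HasDerivAt (Mx X)
    (∑ d ∈ Finset.Icc 1 X, ((ArithmeticFunction.moebius d : ℤ) : ℂ) *
      ((d : ℂ) ^ (-s) * Complex.log (d : ℂ) * (-1))) s := by
  unfold Mx
  refine HasDerivAt.fun_sum fun d hd => ?_
  rw [Finset.mem_Icc] at hd
  refine HasDerivAt.const_mul _ ?_
  have h0 : (d : ℂ) ≠ 0 := by
    have : d ≠ 0 := by omega
    exact_mod_cast this
  exact (hasDerivAt_neg s).const_cpow (Or.inl h0)

private theorem FConv_le (d : ℕ) (hd : 1 ≤ d) (s : ℂ) (hs : 0 ≤ s.re) :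
    ‖(d : ℂ) ^ (-s)‖ ≤ 1 := by
  rw [Complex.norm_natCast_cpow_of_pos (by omega)]
  refine Real.rpow_le_one_of_one_le_of_nonpos (by exact_mod_cast hd) ?_
  rw [Complex.neg_re]
  linarith

private theorem FConv_mu (d : ℕ) : ‖((ArithmeticFunction.moebius d : ℤ) : ℂ)‖ ≤ 1 := by
  rw [Complex.norm_intCast]
  have h := ArithmeticFunction.abs_moebius_le_one (n := d)
  exact_mod_cast h

theorem Mx_diff (X : ℕ) : Differentiable ℂ (Mx X) := by
  intro s
  exact (FConv_hd X s).differentiableAt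

theorem Mx_norm (X : ℕ) (s : ℂ) (hs : 0 ≤ s.re) : ‖Mx X s‖ ≤ X := by
  unfold Mx
  refine (norm_sum_le _ _).trans ?_
  refine (Finset.sum_le_card_nsmul _ _ 1 ?_).trans ?_
  · intro d hd
    rw [Finset.mem_Icc] at hd
    rw [norm_mul]
    exact mul_le_one₀ (FConv_mu d) (norm_nonneg _) (FConv_le d hd.1 s hs)
  · simp

theorem Mx_deriv (X : ℕ) (s : ℂ) (hs : 0 ≤ s.re) : ‖deriv (Mx X) s‖ ≤ (X : ℝ) ^ 2 := by
  rw [(FConv_hd X s).deriv]
  refine (norm_sum_le _ _).trans ?_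
  refine (Finset.sum_le_card_nsmul _ _ (X : ℝ) ?_).trans ?_
  · intro d hd
    rw [Finset.mem_Icc] at hd
    rw [norm_mul, norm_mul, norm_mul, norm_neg, norm_one, mul_one, ← Complex.natCast_log,
      Complex.norm_real, Real.norm_eq_abs, abs_of_nonneg (Real.log_natCast_nonneg d)]
    have h1 := FConv_mu d
    have h2 := FConv_le d hd.1 s hs
    have h3 : Real.log (d : ℝ) ≤ X := by
      have h4 : (0 : ℝ) < d := by exact_mod_cast hd.1
      have h5 := Real.log_le_sub_one_of_pos h4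
      have h6 : (d : ℝ) ≤ X := by exact_mod_cast hd.2
      linarith
    have h7 := Real.log_natCast_nonneg d
    calc ‖((ArithmeticFunction.moebius d : ℤ) : ℂ)‖ * (‖(d : ℂ) ^ (-s)‖ * Real.log (d : ℝ))
        ≤ 1 * (1 * (X : ℝ)) := by gcongr
      _ = X := by ring
  · simp [sq]

end

end Pool.Agent.Lib.MP_ec260d_ntD
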