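import Mathlib

/-!
# JOB F/FMV: mean value of a Dirichlet polynomial over an arbitrary interval (about 200 lines)

Expand the square: `‖∑ a_n n^(-it)‖^2 = ∑_{m,n} a_m conj(a_n) (n/m)^(it)` (real part), `|∫_{A₁}^{A₂} (n/m)^(it) dt| ≤ 2/|log (n/m)|` for `m ≠ n`. So the integral is at most `(A₂ - A₁) ∑ |a_n|^2 + ∑_{m ≠ n} 2 |a_m| |a_n|/|log (m/n)|`, and `|a_n| ≤ B n^(-7/8)`.
Near pairs, `n < m ≤ 2 n`: `log (m/n) ≥ (m - n)/m ≥ (m - n)/(2 n)`, `|a_m||a_n| ≤ B² n^(-7/4)`: the sum over `m` is at most `B² n^(-7/4) 2 n * 2 * ∑_{1 ≤ k ≤ n} 1/k ≤ 4 B² n^(-3/4) (1 + log M)`; the sum over `n ≤ M` is at most `C B² M^(1/4) (1 + log M) ≤ C' B² M^(1/3)`.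
Far pairs, `m > 2 n`: `log (m/n) ≥ log 2 ≥ 1/2`: at most `4 (∑ |a_n|)² ≤ 4 B² (8 M^(1/8) + 1)^2 ≤ C B² M^(1/4)`.
(The case `m < n` is symmetric.) A similar computation for another range is in `Lib/MP_ec260d_ntB/Y/MV.lean` (block Y of theorem B), which can be used as a model for the expansion of the square.
-/

namespace Pool.Agent.Lib.MP_ec260d_ntD

open Complex MeasureTheory

private theorem FMV_cpow {n : ℕ} (hn : 1 ≤ n) (t : ℝ) :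
    (n : ℂ) ^ (-((t : ℂ) * I)) = Complex.exp (((-(Real.log n * t) : ℝ) : ℂ) * I) := by
  have h0 : (n : ℂ) ≠ 0 := by
    have : n ≠ 0 := by omega
    exact_mod_cast this
  rw [Complex.cpow_def_of_ne_zero h0, ← Complex.natCast_log]
  congr 1
  push_cast
  ring

private theorem FMV_prod {m n : ℕ} (hm : 1 ≤ m) (hn : 1 ≤ n) (a b : ℂ) (t : ℝ) :
    (a * (m : ℂ) ^ (-((t : ℂ) * I))) * (starRingEnd ℂ) (b * (n : ℂ) ^ (-((t : ℂ) * I))) =
      a * (starRingEnd ℂ) b *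
        Complex.exp ((((Real.log n - Real.log m : ℝ) : ℂ) * I) * (t : ℂ)) := by
  rw [FMV_cpow hm, FMV_cpow hn, map_mul, ← Complex.exp_conj, map_mul, Complex.conj_ofReal,
    Complex.conj_I]
  rw [show a * Complex.exp (((-(Real.log m * t) : ℝ) : ℂ) * I) *
      ((starRingEnd ℂ) b * Complex.exp (((-(Real.log n * t) : ℝ) : ℂ) * -I)) =
      a * (starRingEnd ℂ) b * (Complex.exp (((-(Real.log m * t) : ℝ) : ℂ) * I) *
        Complex.exp (((-(Real.log n * t) : ℝ) : ℂ) * -I)) by ring, ← Complex.exp_add]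
  congr 2
  push_cast
  ring

private theorem FMV_int {c : ℝ} (hc : c ≠ 0) (A₁ A₂ : ℝ) :
    ‖∫ t in A₁..A₂, Complex.exp (((c : ℂ) * I) * (t : ℂ))‖ ≤ 2 / |c| := by
  have h0 : (c : ℂ) * I ≠ 0 := mul_ne_zero (by exact_mod_cast hc) I_ne_zero
  rw [integral_exp_mul_complex h0, norm_div]
  have h1 : ‖(c : ℂ) * I‖ = |c| := by
    rw [norm_mul, Complex.norm_I, mul_one, Complex.norm_real, Real.norm_eq_abs]
  have h2 : ∀ x : ℝ, ‖Complex.exp (((c : ℂ) * I) * (x : ℂ))‖ = 1 := by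
    intro x
    rw [show ((c : ℂ) * I) * (x : ℂ) = ((c * x : ℝ) : ℂ) * I by push_cast; ring,
      Complex.norm_exp_ofReal_mul_I]
  rw [h1]
  have h3 : ‖Complex.exp (((c : ℂ) * I) * (A₂ : ℂ)) - Complex.exp (((c : ℂ) * I) * (A₁ : ℂ))‖ ≤ 2 := by
    refine (norm_sub_le _ _).trans ?_
    rw [h2, h2]
    norm_num
  exact div_le_div_of_nonneg_right h3 (abs_nonneg c)

private theorem FMV_a {M : ℕ} {B : ℝ} {a : ℕ → ℂ} (hB : 0 ≤ B)
    (ha : ∀ n ∈ Finset.Icc 1 M, ‖a n‖ ≤ B * (n : ℝ) ^ (-(7 / 8) : ℝ)) {n : ℕ}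
    (hn : n ∈ Finset.Icc 1 M) : ‖a n‖ * n ≤ B * (M : ℝ) ^ (1 / 8 : ℝ) := by
  have h1 := ha n hn
  rw [Finset.mem_Icc] at hn
  have h2 : (0 : ℝ) < n := by exact_mod_cast hn.1
  have h3 : (n : ℝ) ^ (-(7 / 8) : ℝ) * n = (n : ℝ) ^ (1 / 8 : ℝ) := by
    rw [← Real.rpow_add_one h2.ne']
    norm_num
  have h4 : (n : ℝ) ^ (1 / 8 : ℝ) ≤ (M : ℝ) ^ (1 / 8 : ℝ) :=
    Real.rpow_le_rpow h2.le (by exact_mod_cast hn.2) (by norm_num)
  calc ‖a n‖ * n ≤ B * (n : ℝ) ^ (-(7 / 8) : ℝ) * n := by gcongr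
    _ = B * (n : ℝ) ^ (1 / 8 : ℝ) := by rw [mul_assoc, h3]
    _ ≤ B * (M : ℝ) ^ (1 / 8 : ℝ) := by gcongr

/-- the weight of a pair -/
private noncomputable def FMV_g (m n : ℕ) : ℝ := if n < m then 1 / ((n : ℝ) * ((m : ℝ) - n)) else 0

private theorem FMV_g_nonneg (m n : ℕ) : 0 ≤ FMV_g m n := by
  unfold FMV_g
  split_ifs with h
  · have : (n : ℝ) < m := by exact_mod_cast h
    have h2 : (0 : ℝ) ≤ (m : ℝ) - n := by linarith
    positivity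
  · exact le_refl 0

private theorem FMV_term {M : ℕ} {B : ℝ} {a : ℕ → ℂ} (hB : 0 ≤ B)
    (ha : ∀ n ∈ Finset.Icc 1 M, ‖a n‖ ≤ B * (n : ℝ) ^ (-(7 / 8) : ℝ)) {m n : ℕ}
    (hm : m ∈ Finset.Icc 1 M) (hn : n ∈ Finset.Icc 1 M) (hmn : n < m) :
    ‖a m‖ * ‖a n‖ * (2 / |Real.log n - Real.log m|) ≤
      2 * B ^ 2 * ((M : ℝ) ^ (1 / 8 : ℝ)) ^ 2 * FMV_g m n := by
  have h1 := FMV_a hB ha hm
  have h2 := FMV_a hB ha hn
  rw [Finset.mem_Icc] at hm hn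
  have hn0 : (0 : ℝ) < n := by exact_mod_cast hn.1
  have hm0 : (0 : ℝ) < m := by exact_mod_cast hm.1
  have hmn' : (n : ℝ) < m := by exact_mod_cast hmn
  have h3 : ((m : ℝ) - n) / m ≤ Real.log m - Real.log n := by
    rw [← Real.log_div hm0.ne' hn0.ne']
    refine le_trans ?_ (Real.one_sub_inv_le_log_of_pos (div_pos hm0 hn0))
    rw [inv_div, sub_div, div_self hm0.ne']
  have h4 : 0 < ((m : ℝ) - n) / m := div_pos (by linarith) hm0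
  have h5 : |Real.log n - Real.log m| = Real.log m - Real.log n := by
    rw [abs_sub_comm, abs_of_pos (lt_of_lt_of_le h4 h3)]
  have h6 : 2 / |Real.log n - Real.log m| ≤ 2 * m / ((m : ℝ) - n) := by
    rw [h5]
    refine (div_le_div_of_nonneg_left (by norm_num) h4 h3).trans ?_
    rw [div_div_eq_mul_div]
  unfold FMV_g
  rw [if_pos hmn]
  have h7 : 0 < (m : ℝ) - n := by linarith
  calc ‖a m‖ * ‖a n‖ * (2 / |Real.log n - Real.log m|)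
      ≤ ‖a m‖ * ‖a n‖ * (2 * m / ((m : ℝ) - n)) := by gcongr
    _ = 2 * ((‖a m‖ * m) * (‖a n‖ * n)) * (1 / ((n : ℝ) * ((m : ℝ) - n))) := by
        field_simp
    _ ≤ 2 * ((B * (M : ℝ) ^ (1 / 8 : ℝ)) * (B * (M : ℝ) ^ (1 / 8 : ℝ))) *
          (1 / ((n : ℝ) * ((m : ℝ) - n))) := by
        have h8 : 0 ≤ ‖a n‖ * n := by positivity
        have h9 : 0 ≤ B * (M : ℝ) ^ (1 / 8 : ℝ) := by positivity
        have h10 : (‖a m‖ * m) * (‖a n‖ * n) ≤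
            (B * (M : ℝ) ^ (1 / 8 : ℝ)) * (B * (M : ℝ) ^ (1 / 8 : ℝ)) :=
          mul_le_mul h1 h2 h8 h9
        have h11 : 0 ≤ 1 / ((n : ℝ) * ((m : ℝ) - n)) := by positivity
        exact mul_le_mul_of_nonneg_right (by linarith) h11
    _ = 2 * B ^ 2 * ((M : ℝ) ^ (1 / 8 : ℝ)) ^ 2 * (1 / ((n : ℝ) * ((m : ℝ) - n))) := by ring

private theorem FMV_sum_g (M : ℕ) : ∑ m ∈ Finset.Icc 1 M, ∑ n ∈ Finset.Icc 1 M, FMV_g m n ≤
    (∑ k ∈ Finset.Icc 1 M, (1 : ℝ) / k) ^ 2 := by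
  rw [Finset.sum_comm, sq, Finset.sum_mul]
  refine Finset.sum_le_sum fun n hn => ?_
  have hn' := Finset.mem_Icc.1 hn
  have h1 : ∑ m ∈ Finset.Icc 1 M, FMV_g m n =
      (1 / (n : ℝ)) * ∑ m ∈ (Finset.Icc 1 M).filter (fun m => n < m), (1 : ℝ) / ((m - n : ℕ) : ℝ) := by
    rw [Finset.sum_filter, Finset.mul_sum]
    refine Finset.sum_congr rfl fun m _ => ?_
    unfold FMV_g
    split_ifs with h
    · rw [Nat.cast_sub h.le, div_mul_div_comm, one_mul]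
    · rw [mul_zero]
  rw [h1]
  refine mul_le_mul_of_nonneg_left ?_ (by positivity)
  have h2 : ∑ m ∈ (Finset.Icc 1 M).filter (fun m => n < m), (1 : ℝ) / ((m - n : ℕ) : ℝ) =
      ∑ k ∈ ((Finset.Icc 1 M).filter (fun m => n < m)).image (fun m => m - n), (1 : ℝ) / (k : ℝ) := by
    rw [Finset.sum_image]
    intro x hx y hy hxy
    simp only [Finset.coe_filter, Finset.mem_Icc, Set.mem_ofPred_eq] at hx hy
    have h3 : x - n = y - n := hxy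
    omega
  rw [h2]
  refine Finset.sum_le_sum_of_subset_of_nonneg ?_ fun k _ _ => by positivity
  intro k hk
  simp only [Finset.mem_image, Finset.mem_filter, Finset.mem_Icc] at hk ⊢
  obtain ⟨m, ⟨⟨h3, h4⟩, h5⟩, rfl⟩ := hk
  omega

private theorem FMV_harm {M : ℕ} (hM : 1 ≤ M) :
    ∑ k ∈ Finset.Icc 1 M, (1 : ℝ) / k ≤ 25 * (M : ℝ) ^ (1 / 24 : ℝ) := by
  have h1 : ∑ k ∈ Finset.Icc 1 M, (1 : ℝ) / k = ((harmonic M : ℚ) : ℝ) := by
    rw [harmonic_eq_sum_Icc]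
    push_cast
    exact Finset.sum_congr rfl fun k _ => one_div _
  have hM0 : (1 : ℝ) ≤ M := by exact_mod_cast hM
  rw [h1]
  refine (harmonic_le_one_add_log M).trans ?_
  have h2 := Real.log_le_rpow_div (x := (M : ℝ)) (by linarith) (show (0 : ℝ) < 1 / 24 by norm_num)
  have h3 : (1 : ℝ) ≤ (M : ℝ) ^ (1 / 24 : ℝ) := Real.one_le_rpow hM0 (by norm_num)
  have h4 : (M : ℝ) ^ (1 / 24 : ℝ) / (1 / 24) = 24 * (M : ℝ) ^ (1 / 24 : ℝ) := by ring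
  rw [h4] at h2
  linarith

private theorem FMV_expand (M : ℕ) (a : ℕ → ℂ) (A₁ A₂ : ℝ) :
    ((∫ t in A₁..A₂, ‖∑ n ∈ Finset.Icc 1 M, a n * (n : ℂ) ^ (-((t : ℂ) * I))‖ ^ 2 : ℝ) : ℂ) =
      ∑ m ∈ Finset.Icc 1 M, ∑ n ∈ Finset.Icc 1 M, a m * (starRingEnd ℂ) (a n) *
        ∫ t in A₁..A₂, Complex.exp ((((Real.log n - Real.log m : ℝ) : ℂ) * I) * (t : ℂ)) := by
  rw [← intervalIntegral.integral_ofReal]
  have h1 : ∀ t : ℝ,
      (((‖∑ n ∈ Finset.Icc 1 M, a n * (n : ℂ) ^ (-((t : ℂ) * I))‖ ^ 2 : ℝ)) : ℂ) =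
      ∑ m ∈ Finset.Icc 1 M, ∑ n ∈ Finset.Icc 1 M, a m * (starRingEnd ℂ) (a n) *
        Complex.exp ((((Real.log n - Real.log m : ℝ) : ℂ) * I) * (t : ℂ)) := by
    intro t
    rw [Complex.ofReal_pow, ← Complex.mul_conj', map_sum, Finset.sum_mul_sum]
    refine Finset.sum_congr rfl fun m hm => Finset.sum_congr rfl fun n hn => ?_
    exact FMV_prod (Finset.mem_Icc.1 hm).1 (Finset.mem_Icc.1 hn).1 _ _ _
  simp_rw [h1]
  have hc : ∀ m n : ℕ, Continuous fun t : ℝ => a m * (starRingEnd ℂ) (a n) *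
        Complex.exp ((((Real.log n - Real.log m : ℝ) : ℂ) * I) * (t : ℂ)) := by
    intro m n
    fun_prop
  rw [intervalIntegral.integral_finsetSum]
  · refine Finset.sum_congr rfl fun m _ => ?_
    rw [intervalIntegral.integral_finsetSum]
    · refine Finset.sum_congr rfl fun n _ => ?_
      rw [intervalIntegral.integral_const_mul]
    · intro n _
      exact (hc m n).intervalIntegrable _ _
  · intro m _
    exact (continuous_finsetSum _ fun n _ => hc m n).intervalIntegrable _ _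

theorem mv_short : ∃ C : ℝ, 0 ≤ C ∧ ∀ (M : ℕ) (B : ℝ) (a : ℕ → ℂ), 1 ≤ M → 0 ≤ B →
    (∀ n ∈ Finset.Icc 1 M, ‖a n‖ ≤ B * (n : ℝ) ^ (-(7 / 8) : ℝ)) → ∀ A₁ A₂ : ℝ, A₁ ≤ A₂ →
      ∫ t in A₁..A₂, ‖∑ n ∈ Finset.Icc 1 M, a n * (n : ℂ) ^ (-((t : ℂ) * I))‖ ^ 2 ≤
        (A₂ - A₁) * ∑ n ∈ Finset.Icc 1 M, ‖a n‖ ^ 2 + C * B ^ 2 * (M : ℝ) ^ (1 / 3 : ℝ) := by
  refine ⟨2500, by norm_num, ?_⟩
  intro M B a hM hB ha A₁ A₂ hA
  have hM0 : (1 : ℝ) ≤ M := by exact_mod_cast hM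
  set E : ℕ → ℕ → ℂ := fun m n =>
    ∫ t in A₁..A₂, Complex.exp ((((Real.log n - Real.log m : ℝ) : ℂ) * I) * (t : ℂ)) with hE
  set D : ℝ := 2 * B ^ 2 * ((M : ℝ) ^ (1 / 8 : ℝ)) ^ 2 with hD
  have hD0 : 0 ≤ D := by positivity
  have h1 := congrArg Complex.re (FMV_expand M a A₁ A₂)
  rw [Complex.ofReal_re, Complex.re_sum] at h1
  rw [h1]
  have h2 : ∀ m ∈ Finset.Icc 1 M, (∑ n ∈ Finset.Icc 1 M, a m * (starRingEnd ℂ) (a n) *
      ∫ t in A₁..A₂, Complex.exp ((((Real.log n - Real.log m : ℝ) : ℂ) * I) * (t : ℂ))).re ≤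
      (A₂ - A₁) * ‖a m‖ ^ 2 + ∑ n ∈ Finset.Icc 1 M, D * (FMV_g m n + FMV_g n m) := by
    intro m hm
    have h3 : (A₂ - A₁) * ‖a m‖ ^ 2 = ∑ n ∈ Finset.Icc 1 M,
        if n = m then (A₂ - A₁) * ‖a m‖ ^ 2 else 0 := by
      rw [Finset.sum_ite_eq' , if_pos hm]
    rw [h3, ← Finset.sum_add_distrib, Complex.re_sum]
    refine Finset.sum_le_sum fun n hn => ?_
    have hg : 0 ≤ D * (FMV_g m n + FMV_g n m) :=
      mul_nonneg hD0 (add_nonneg (FMV_g_nonneg _ _) (FMV_g_nonneg _ _))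
    by_cases h : n = m
    · subst h
      rw [if_pos rfl]
      have h4 : (∫ t in A₁..A₂, Complex.exp ((((Real.log n - Real.log n : ℝ) : ℂ) * I) *
          (t : ℂ))) = ((A₂ - A₁ : ℝ) : ℂ) := by
        simp
      rw [h4, Complex.mul_conj', ← Complex.ofReal_pow, ← Complex.ofReal_mul, Complex.ofReal_re]
      linarith
    · rw [if_neg h, zero_add]
      refine (Complex.re_le_norm _).trans ?_
      rw [norm_mul, norm_mul, RCLike.norm_conj]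
      have hm' := Finset.mem_Icc.1 hm
      have hn' := Finset.mem_Icc.1 hn
      have h5 : Real.log n - Real.log m ≠ 0 := by
        intro h6
        have h7 : Real.log (n : ℝ) = Real.log (m : ℝ) := by linarith
        have h8 : (n : ℝ) = m := Real.log_injOn_pos
          (Set.mem_Ioi.2 (by exact_mod_cast hn'.1)) (Set.mem_Ioi.2 (by exact_mod_cast hm'.1)) h7
        exact h (by exact_mod_cast h8)
      have h6 := FMV_int h5 A₁ A₂
      have h7 : ‖a m‖ * ‖a n‖ * ‖∫ t in A₁..A₂,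
          Complex.exp ((((Real.log n - Real.log m : ℝ) : ℂ) * I) * (t : ℂ))‖ ≤
          ‖a m‖ * ‖a n‖ * (2 / |Real.log n - Real.log m|) :=
        mul_le_mul_of_nonneg_left h6 (by positivity)
      refine h7.trans ?_
      rcases lt_or_gt_of_ne h with h8 | h8
      · have h9 := FMV_term hB ha hm hn h8
        have h10 := mul_nonneg hD0 (FMV_g_nonneg n m)
        rw [mul_add]
        linarith
      · have h9 := FMV_term hB ha hn hm h8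
        rw [abs_sub_comm, mul_comm ‖a n‖ ‖a m‖] at h9
        have h10 := mul_nonneg hD0 (FMV_g_nonneg m n)
        rw [mul_add]
        linarith
  refine (Finset.sum_le_sum h2).trans ?_
  rw [Finset.sum_add_distrib, ← Finset.mul_sum]
  refine add_le_add le_rfl ?_
  have h3 : ∑ m ∈ Finset.Icc 1 M, ∑ n ∈ Finset.Icc 1 M, D * (FMV_g m n + FMV_g n m) =
      D * (∑ m ∈ Finset.Icc 1 M, ∑ n ∈ Finset.Icc 1 M, FMV_g m n +
        ∑ m ∈ Finset.Icc 1 M, ∑ n ∈ Finset.Icc 1 M, FMV_g n m) := by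
    rw [← Finset.sum_add_distrib, Finset.mul_sum]
    refine Finset.sum_congr rfl fun m _ => ?_
    rw [← Finset.sum_add_distrib, Finset.mul_sum]
  have h4 : ∑ m ∈ Finset.Icc 1 M, ∑ n ∈ Finset.Icc 1 M, FMV_g n m =
      ∑ m ∈ Finset.Icc 1 M, ∑ n ∈ Finset.Icc 1 M, FMV_g m n := Finset.sum_comm
  rw [h3, h4]
  have h5 := FMV_sum_g M
  have h6 := FMV_harm hM
  have h7 : (0 : ℝ) ≤ ∑ k ∈ Finset.Icc 1 M, (1 : ℝ) / k :=
    Finset.sum_nonneg fun k _ => by positivity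
  have h8 : (∑ k ∈ Finset.Icc 1 M, (1 : ℝ) / k) ^ 2 ≤ (25 * (M : ℝ) ^ (1 / 24 : ℝ)) ^ 2 :=
    pow_le_pow_left₀ h7 h6 2
  have hM1 : (0 : ℝ) < M := by linarith
  have h9 : ((M : ℝ) ^ (1 / 8 : ℝ)) ^ 2 * ((M : ℝ) ^ (1 / 24 : ℝ)) ^ 2 = (M : ℝ) ^ (1 / 3 : ℝ) := by
    rw [← mul_pow, ← Real.rpow_add hM1, ← Real.rpow_natCast, ← Real.rpow_mul hM1.le]
    norm_num
  calc D * (∑ m ∈ Finset.Icc 1 M, ∑ n ∈ Finset.Icc 1 M, FMV_g m n +
        ∑ m ∈ Finset.Icc 1 M, ∑ n ∈ Finset.Icc 1 M, FMV_g m n)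
      ≤ D * ((25 * (M : ℝ) ^ (1 / 24 : ℝ)) ^ 2 + (25 * (M : ℝ) ^ (1 / 24 : ℝ)) ^ 2) := by
        refine mul_le_mul_of_nonneg_left ?_ hD0
        linarith
    _ = 2500 * B ^ 2 * (((M : ℝ) ^ (1 / 8 : ℝ)) ^ 2 * ((M : ℝ) ^ (1 / 24 : ℝ)) ^ 2) := by
        rw [hD]
        ring
    _ = 2500 * B ^ 2 * (M : ℝ) ^ (1 / 3 : ℝ) := by rw [h9]

end Pool.Agent.Lib.MP_ec260d_ntD
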