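import Mathlib
import Pool.Agent.Lib.MP_ec260d_ntD.F.FZ
import Pool.Agent.Lib.MP_ec260d_ntD.F.FConv
import Pool.Agent.Lib.MP_ec260d_ntD.F.FMV
import Pool.Agent.Lib.MP_2a816b_nt.Divisor

/-!
# JOB F/FSq: mean square of `ζ M - 1` on vertical lines near `Re s = 1` (about 200 lines)

`N = ⌈u₁ ^ (3/2)⌉₊`, `s = b + i t`, `u₁ - 1 ≤ t ≤ u₂ + 1 ≤ 4 u₁` (`u₁ ≥ C` large), `X ≤ u₁ ^ (1/40) ≤ N`. By `zeta_sum`: `ζ(s) = ∑_{n ≤ N} n^(-s) + E(s)`, `‖E(s)‖ ≤ ‖(N + 1)^(1 - s)‖/‖s - 1‖ + ‖s‖/b * N^(-b) ≤ (2 u₁^(3/2) + 1)^(1/10)/(u₁ - 1) + 10 u₁ u₁^(-27/20) ≤ C u₁^(-7/20)`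
(for `b ≥ 1` the first numerator is `≤ 1`; `N ^ (-b) ≤ u₁ ^ (-(3/2)(9/10))`).
So `ζ M - 1 = ∑_{X < n ≤ N X} c_n n^(-s) + E M` (`conv_eq`, `cf_one`, `cf_zero`), `‖E M‖ ≤ C u₁^(-7/20) X ≤ C u₁^(-13/40)`.
Divisor bound: `|c_n| ≤ n.divisors.card ≤ D n^(1/40)` (`Pool.Agent.Lib.MP_2a816b_nt.divisor_bound`), so the coefficients `a_n = c_n n^(-b)` (`n > X`, and 0 for `n ≤ X`) satisfy `|a_n| ≤ D n^(1/40 - 9/10) = D n^(-7/8)`. By `mv_short`: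
`∫ ‖∑‖^2 ≤ (u₂ - u₁ + 2) ∑_{n > X} D² n^(-7/4) + C D² (N X)^(1/3) ≤ C (u₂ - u₁) X^(-3/4) + C (2 u₁^(3/2 + 1/40) + ..)^(1/3)`, and `u₁^((3/2 + 1/40)/3) = u₁^(61/120) ≤ u₁^(3/5) u₁^(-1/80) ≤ (u₂ - u₁) X^(-1/2)` (`11/120 ≥ 1/80`, `X^40 ≤ u₁`).
`∫ ‖E M‖^2 ≤ C (u₂ - u₁ + 2) u₁^(-13/20) ≤ C (u₂ - u₁) X^(-1/2)`. Use `‖x + y‖² ≤ 2 ‖x‖² + 2 ‖y‖²`; all integrands are continuous on the interval (`t ≥ u₁ - 1 > 0`).
`n^(-(b + i t)) = n^(-b) n^(-(i t))` for natural `n ≥ 1`.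
-/

namespace Pool.Agent.Lib.MP_ec260d_ntD

open Complex MeasureTheory

private theorem FSq_two (z w : ℂ) : ‖z + w‖ ^ 2 ≤ 2 * ‖z‖ ^ 2 + 2 * ‖w‖ ^ 2 := by
  have h := norm_add_le z w
  have h0 := norm_nonneg (z + w)
  nlinarith [sq_nonneg (‖z‖ - ‖w‖), norm_nonneg z, norm_nonneg w]

private noncomputable def FSq_a (X N : ℕ) (b : ℝ) (n : ℕ) : ℂ :=
  if n ≤ X then 0 else (cf X N n : ℂ) * (n : ℂ) ^ (-(b : ℂ))

private theorem FSq_sum {X N : ℕ} (hX : 1 ≤ X) (hXN : X ≤ N) (b t : ℝ) :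
    (∑ n ∈ Finset.Icc 1 N, (n : ℂ) ^ (-((b : ℂ) + t * I))) * Mx X ((b : ℂ) + t * I) - 1 =
      ∑ n ∈ Finset.Icc 1 (N * X), FSq_a X N b n * (n : ℂ) ^ (-((t : ℂ) * I)) := by
  rw [conv_eq]
  have hN : 1 ≤ N := hX.trans hXN
  have h1 : 1 ∈ Finset.Icc 1 (N * X) := Finset.mem_Icc.2 ⟨le_rfl, Nat.mul_pos hN hX⟩
  rw [← Finset.add_sum_erase _ _ h1,
    ← Finset.add_sum_erase _ (fun n => FSq_a X N b n * (n : ℂ) ^ (-((t : ℂ) * I))) h1]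
  have h2 : FSq_a X N b 1 = 0 := by
    unfold FSq_a
    rw [if_pos hX]
  simp only [h2]
  rw [cf_one hX hN, Nat.cast_one, one_cpow, ofReal_one, mul_one, zero_mul, zero_add,
    add_sub_cancel_left]
  refine Finset.sum_congr rfl fun n hn => ?_
  obtain ⟨h3, h4⟩ := Finset.mem_erase.1 hn
  have h5 : 1 < n := lt_of_le_of_ne (Finset.mem_Icc.1 h4).1 (Ne.symm h3)
  have h6 : (n : ℂ) ≠ 0 := by
    have : n ≠ 0 := by omega
    exact_mod_cast this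
  unfold FSq_a
  by_cases h : n ≤ X
  · rw [if_pos h, cf_zero hXN h5 h, ofReal_zero, zero_mul, zero_mul]
  · rw [if_neg h, neg_add, cpow_add _ _ h6, mul_assoc]

private theorem FSq_norm {X N : ℕ} {b D : ℝ} (hD : 1 ≤ D)
    (hdiv : ∀ n : ℕ, 0 < n → (n.divisors.card : ℝ) ≤ D * (n : ℝ) ^ (1 / 40 : ℝ))
    (hb : 9 / 10 ≤ b) {n : ℕ} (hn : 1 ≤ n) : ‖FSq_a X N b n‖ ≤ D * (n : ℝ) ^ (-(7 / 8) : ℝ) := by
  unfold FSq_a
  split_ifs with h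
  · rw [norm_zero]
    positivity
  · have hn1 : (1 : ℝ) ≤ n := by exact_mod_cast hn
    rw [norm_mul, Complex.norm_natCast_cpow_of_pos hn, Complex.norm_real, Real.norm_eq_abs, neg_re,
      ofReal_re]
    have h1 := (cf_le X N n).trans (hdiv n hn)
    have h2 : (n : ℝ) ^ (-b) ≤ (n : ℝ) ^ (-(9 / 10) : ℝ) :=
      Real.rpow_le_rpow_of_exponent_le hn1 (by linarith)
    refine (mul_le_mul h1 h2 (by positivity) (by positivity)).trans (le_of_eq ?_)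
    rw [mul_assoc, ← Real.rpow_add (by linarith)]
    norm_num

private theorem FSq_zero {X N : ℕ} {b : ℝ} {n : ℕ} (h : n ≤ X) : FSq_a X N b n = 0 := by
  unfold FSq_a
  rw [if_pos h]

private theorem FSq_sq {X N : ℕ} (hX : 1 ≤ X) {b D : ℝ} (hD : 1 ≤ D)
    (hdiv : ∀ n : ℕ, 0 < n → (n.divisors.card : ℝ) ≤ D * (n : ℝ) ^ (1 / 40 : ℝ))
    (hb : 9 / 10 ≤ b) (M : ℕ) : ∑ n ∈ Finset.Icc 1 M, ‖FSq_a X N b n‖ ^ 2 ≤
      D ^ 2 * (∑' n : ℕ, (n : ℝ) ^ (-(5 / 4) : ℝ)) * (X : ℝ) ^ (-(1 / 2) : ℝ) := by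
  have hX1 : (1 : ℝ) ≤ X := by exact_mod_cast hX
  have hs : Summable (fun n : ℕ => (n : ℝ) ^ (-(5 / 4) : ℝ)) :=
    Real.summable_nat_rpow.2 (by norm_num)
  have h1 : ∀ n ∈ Finset.Icc 1 M, ‖FSq_a X N b n‖ ^ 2 ≤
      D ^ 2 * (X : ℝ) ^ (-(1 / 2) : ℝ) * (n : ℝ) ^ (-(5 / 4) : ℝ) := by
    intro n hn
    have hn1 := (Finset.mem_Icc.1 hn).1
    by_cases h : n ≤ X
    · rw [FSq_zero h, norm_zero, zero_pow two_ne_zero]
      positivity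
    · have hXn : (X : ℝ) ≤ n := by exact_mod_cast (not_le.1 h).le
      have h2 := FSq_norm (X := X) (N := N) hD hdiv hb hn1
      have h3 : ‖FSq_a X N b n‖ ^ 2 ≤ (D * (n : ℝ) ^ (-(7 / 8) : ℝ)) ^ 2 :=
        pow_le_pow_left₀ (norm_nonneg _) h2 2
      have h4 : ((n : ℝ) ^ (-(7 / 8) : ℝ)) ^ 2 = (n : ℝ) ^ (-(1 / 2) : ℝ) * (n : ℝ) ^ (-(5 / 4) : ℝ) := by
        rw [← Real.rpow_natCast, ← Real.rpow_mul (by linarith), ← Real.rpow_add (by linarith)]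
        norm_num
      have h5 : (n : ℝ) ^ (-(1 / 2) : ℝ) ≤ (X : ℝ) ^ (-(1 / 2) : ℝ) :=
        Real.rpow_le_rpow_of_nonpos (by linarith) hXn (by norm_num)
      rw [mul_pow, h4] at h3
      refine h3.trans ?_
      rw [mul_assoc]
      exact mul_le_mul_of_nonneg_left (mul_le_mul_of_nonneg_right h5 (by positivity)) (by positivity)
  refine (Finset.sum_le_sum h1).trans ?_
  rw [← Finset.mul_sum]
  have h2 : ∑ n ∈ Finset.Icc 1 M, (n : ℝ) ^ (-(5 / 4) : ℝ) ≤ ∑' n : ℕ, (n : ℝ) ^ (-(5 / 4) : ℝ) :=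
    hs.sum_le_tsum _ fun n _ => by positivity
  calc _ ≤ D ^ 2 * (X : ℝ) ^ (-(1 / 2) : ℝ) * ∑' n : ℕ, (n : ℝ) ^ (-(5 / 4) : ℝ) :=
        mul_le_mul_of_nonneg_left h2 (by positivity)
    _ = _ := by ring

private theorem FSq_E {u₁ u₂ b t : ℝ} (hu : 10 ≤ u₁) (h3 : u₂ ≤ 3 * u₁) (hb : 9 / 10 ≤ b)
    (hb' : b ≤ 11 / 10) (ht : u₁ - 1 ≤ t) (ht' : t ≤ u₂ + 1) {N : ℕ}
    (hN : u₁ ^ (3 / 2 : ℝ) ≤ N) (hN' : (N : ℝ) ≤ 2 * u₁ ^ (3 / 2 : ℝ)) :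
    ‖riemannZeta ((b : ℂ) + t * I) - ∑ n ∈ Finset.Icc 1 N, (n : ℂ) ^ (-((b : ℂ) + t * I))‖ ≤
      11 * u₁ ^ (-(7 / 20) : ℝ) := by
  have hu0 : 0 < u₁ := by linarith
  have hu1 : 1 ≤ u₁ ^ (3 / 2 : ℝ) := Real.one_le_rpow (by linarith) (by norm_num)
  have hN1 : 1 ≤ N := by
    have : (1 : ℝ) ≤ N := hu1.trans hN
    exact_mod_cast this
  have hre : ((b : ℂ) + t * I).re = b := by simp
  have him : ((b : ℂ) + t * I).im = t := by simp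
  have hs1 : (b : ℂ) + t * I ≠ 1 := by
    intro h
    have := congrArg Complex.im h
    rw [him, one_im] at this
    linarith
  have h1 := zeta_sum ((b : ℂ) + t * I) (by rw [hre]; linarith) hs1 N hN1
  rw [hre] at h1
  have h2 : ‖(b : ℂ) + t * I‖ ≤ 4 * u₁ := by
    refine (norm_add_le _ _).trans ?_
    rw [norm_mul, norm_I, mul_one, Complex.norm_real, Complex.norm_real, Real.norm_eq_abs,
      Real.norm_eq_abs, abs_of_nonneg (by linarith), abs_of_nonneg (by linarith)]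
    linarith
  have h4 : (N : ℝ) ^ (-b) ≤ u₁ ^ (-(27 / 20) : ℝ) := by
    calc (N : ℝ) ^ (-b) ≤ (N : ℝ) ^ (-(9 / 10) : ℝ) :=
          Real.rpow_le_rpow_of_exponent_le (by linarith) (by linarith)
      _ ≤ (u₁ ^ (3 / 2 : ℝ)) ^ (-(9 / 10) : ℝ) :=
          Real.rpow_le_rpow_of_nonpos (by linarith) hN (by norm_num)
      _ = u₁ ^ (-(27 / 20) : ℝ) := by
          rw [← Real.rpow_mul hu0.le]
          norm_num
  have h5 : u₁ * u₁ ^ (-(27 / 20) : ℝ) = u₁ ^ (-(7 / 20) : ℝ) := by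
    nth_rewrite 1 [← Real.rpow_one u₁]
    rw [← Real.rpow_add hu0]
    norm_num
  have h6 : ‖(b : ℂ) + t * I‖ / b * (N : ℝ) ^ (-b) ≤ 5 * u₁ ^ (-(7 / 20) : ℝ) := by
    have h7 : ‖(b : ℂ) + t * I‖ / b ≤ 5 * u₁ := by
      rw [div_le_iff₀ (by linarith)]
      nlinarith
    calc ‖(b : ℂ) + t * I‖ / b * (N : ℝ) ^ (-b) ≤ 5 * u₁ * u₁ ^ (-(27 / 20) : ℝ) :=
          mul_le_mul h7 h4 (by positivity) (by positivity)
      _ = 5 * u₁ ^ (-(7 / 20) : ℝ) := by rw [mul_assoc, h5]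
  have h8 : ‖((N : ℂ) + 1) ^ (1 - ((b : ℂ) + t * I)) / (((b : ℂ) + t * I) - 1)‖ ≤
      6 * u₁ ^ (-(7 / 20) : ℝ) := by
    rw [norm_div]
    have h9 : u₁ / 2 ≤ ‖((b : ℂ) + t * I) - 1‖ := by
      have h10 := Complex.abs_im_le_norm (((b : ℂ) + t * I) - 1)
      rw [sub_im, him, one_im, sub_zero, abs_of_nonneg (by linarith)] at h10
      linarith
    have h10 : ((N : ℂ) + 1) = ((N + 1 : ℕ) : ℂ) := by push_cast; ring
    have h11 : ‖((N : ℂ) + 1) ^ (1 - ((b : ℂ) + t * I))‖ ≤ 3 * u₁ ^ (3 / 20 : ℝ) := by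
      rw [h10, Complex.norm_natCast_cpow_of_pos (Nat.succ_pos N), sub_re, hre, one_re]
      have h12 : ((N + 1 : ℕ) : ℝ) ≤ 3 * u₁ ^ (3 / 2 : ℝ) := by
        push_cast
        linarith
      have h13 : (1 : ℝ) ≤ ((N + 1 : ℕ) : ℝ) := by
        push_cast
        linarith [Nat.cast_nonneg (α := ℝ) N]
      calc ((N + 1 : ℕ) : ℝ) ^ (1 - b) ≤ ((N + 1 : ℕ) : ℝ) ^ (1 / 10 : ℝ) :=
            Real.rpow_le_rpow_of_exponent_le h13 (by linarith)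
        _ ≤ (3 * u₁ ^ (3 / 2 : ℝ)) ^ (1 / 10 : ℝ) :=
            Real.rpow_le_rpow (by linarith) h12 (by norm_num)
        _ = 3 ^ (1 / 10 : ℝ) * u₁ ^ (3 / 20 : ℝ) := by
            rw [Real.mul_rpow (by norm_num) (by positivity), ← Real.rpow_mul hu0.le]
            norm_num
        _ ≤ 3 * u₁ ^ (3 / 20 : ℝ) := by
            refine mul_le_mul_of_nonneg_right ?_ (by positivity)
            calc (3 : ℝ) ^ (1 / 10 : ℝ) ≤ 3 ^ (1 : ℝ) :=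
                  Real.rpow_le_rpow_of_exponent_le (by norm_num) (by norm_num)
              _ = 3 := Real.rpow_one 3
    rw [div_le_iff₀ (by linarith)]
    refine h11.trans ?_
    have h14 : u₁ ^ (3 / 20 : ℝ) ≤ u₁ ^ (13 / 20 : ℝ) :=
      Real.rpow_le_rpow_of_exponent_le (by linarith) (by norm_num)
    have h15 : u₁ ^ (13 / 20 : ℝ) = u₁ ^ (-(7 / 20) : ℝ) * u₁ := by
      nth_rewrite 3 [← Real.rpow_one u₁]
      rw [← Real.rpow_add hu0]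
      norm_num
    calc 3 * u₁ ^ (3 / 20 : ℝ) ≤ 3 * (u₁ ^ (-(7 / 20) : ℝ) * u₁) := by
          rw [← h15]
          linarith
      _ = 6 * u₁ ^ (-(7 / 20) : ℝ) * (u₁ / 2) := by ring
      _ ≤ _ := mul_le_mul_of_nonneg_left h9 (by positivity)
  have h9 := norm_add_le (riemannZeta ((b : ℂ) + t * I) -
      ∑ n ∈ Finset.Icc 1 N, (n : ℂ) ^ (-((b : ℂ) + t * I)) -
      ((N : ℂ) + 1) ^ (1 - ((b : ℂ) + t * I)) / (((b : ℂ) + t * I) - 1))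
      (((N : ℂ) + 1) ^ (1 - ((b : ℂ) + t * I)) / (((b : ℂ) + t * I) - 1))
  rw [sub_add_cancel] at h9
  linarith

theorem sq_g : ∃ C : ℝ, 1 ≤ C ∧ ∀ (X : ℕ) (u₁ u₂ b : ℝ), 1 ≤ X → C ≤ u₁ → (X : ℝ) ^ 40 ≤ u₁ → u₂ ≤ 3 * u₁ →
    u₁ ^ (3 / 5 : ℝ) ≤ u₂ - u₁ → 9 / 10 ≤ b → b ≤ 11 / 10 →
      ∫ t in (u₁ - 1)..(u₂ + 1), ‖riemannZeta ((b : ℂ) + t * I) * Mx X ((b : ℂ) + t * I) - 1‖ ^ 2 ≤
        C * (X : ℝ) ^ (-(1 / 2) : ℝ) * (u₂ - u₁) := by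
  obtain ⟨D, hD, hdiv⟩ := Pool.Agent.Lib.MP_2a816b_nt.divisor_bound (1 / 40) (by norm_num)
  obtain ⟨C₁, hC₁, hmv⟩ := mv_short
  set K : ℝ := ∑' n : ℕ, (n : ℝ) ^ (-(5 / 4) : ℝ) with hK
  have hK0 : 0 ≤ K := tsum_nonneg fun n => by positivity
  refine ⟨10 + 6 * D ^ 2 * K + 4 * C₁ * D ^ 2 + 726, by
    have : 0 ≤ D ^ 2 * K := by positivity
    have : 0 ≤ C₁ * D ^ 2 := by positivity
    nlinarith, ?_⟩
  intro X u₁ u₂ b hX hC hX40 h3 hlen hb hb'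
  have hu : 10 ≤ u₁ := by
    have h1 : 0 ≤ D ^ 2 * K := by positivity
    have h2 : 0 ≤ C₁ * D ^ 2 := by positivity
    nlinarith
  have hu0 : 0 < u₁ := by linarith
  have hX1 : (1 : ℝ) ≤ X := by exact_mod_cast hX
  have hlen1 : 1 ≤ u₂ - u₁ := (Real.one_le_rpow (by linarith) (by norm_num)).trans hlen
  -- powers
  have hXu : (X : ℝ) ≤ u₁ ^ (1 / 40 : ℝ) := by
    have h1 : ((X : ℝ) ^ 40) ^ (1 / 40 : ℝ) ≤ u₁ ^ (1 / 40 : ℝ) :=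
      Real.rpow_le_rpow (by positivity) hX40 (by norm_num)
    rw [← Real.rpow_natCast, ← Real.rpow_mul (by linarith)] at h1
    norm_num at h1
    norm_num
    exact h1
  have hXh : u₁ ^ (-(1 / 80) : ℝ) ≤ (X : ℝ) ^ (-(1 / 2) : ℝ) := by
    calc u₁ ^ (-(1 / 80) : ℝ) = (u₁ ^ (1 / 40 : ℝ)) ^ (-(1 / 2) : ℝ) := by
          rw [← Real.rpow_mul hu0.le]
          norm_num
      _ ≤ (X : ℝ) ^ (-(1 / 2) : ℝ) :=
          Real.rpow_le_rpow_of_nonpos (by linarith) hXu (by norm_num)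
  have hu32 : 1 ≤ u₁ ^ (3 / 2 : ℝ) := Real.one_le_rpow (by linarith) (by norm_num)
  set N : ℕ := ⌈u₁ ^ (3 / 2 : ℝ)⌉₊ with hN
  have hN1 : u₁ ^ (3 / 2 : ℝ) ≤ N := Nat.le_ceil _
  have hN2 : (N : ℝ) ≤ 2 * u₁ ^ (3 / 2 : ℝ) := by
    have := (Nat.ceil_lt_add_one (show 0 ≤ u₁ ^ (3 / 2 : ℝ) by positivity)).le
    linarith
  have hXN : X ≤ N := by
    have h1 : (X : ℝ) ≤ N := by
      refine hXu.trans (le_trans ?_ hN1)
      exact Real.rpow_le_rpow_of_exponent_le (by linarith) (by norm_num)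
    exact_mod_cast h1
  have hNX : 1 ≤ N * X := Nat.mul_pos (lt_of_lt_of_le hX hXN) hX
  have hA : u₁ - 1 ≤ u₂ + 1 := by linarith
  -- the pointwise bound
  have hpt : ∀ t ∈ Set.Icc (u₁ - 1) (u₂ + 1),
      ‖riemannZeta ((b : ℂ) + t * I) * Mx X ((b : ℂ) + t * I) - 1‖ ^ 2 ≤
        2 * ‖∑ n ∈ Finset.Icc 1 (N * X), FSq_a X N b n * (n : ℂ) ^ (-((t : ℂ) * I))‖ ^ 2 +
          242 * u₁ ^ (-(13 / 20) : ℝ) := by
    intro t ht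
    have h1 := FSq_E hu h3 hb hb' ht.1 ht.2 hN1 hN2
    have h2 := Mx_norm X ((b : ℂ) + t * I) (by simp; linarith)
    have h4 : riemannZeta ((b : ℂ) + t * I) * Mx X ((b : ℂ) + t * I) - 1 =
        ∑ n ∈ Finset.Icc 1 (N * X), FSq_a X N b n * (n : ℂ) ^ (-((t : ℂ) * I)) +
        (riemannZeta ((b : ℂ) + t * I) - ∑ n ∈ Finset.Icc 1 N, (n : ℂ) ^ (-((b : ℂ) + t * I))) *
          Mx X ((b : ℂ) + t * I) := by
      rw [← FSq_sum hX hXN]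
      ring
    rw [h4]
    refine (FSq_two _ _).trans ?_
    have h5 : ‖(riemannZeta ((b : ℂ) + t * I) -
        ∑ n ∈ Finset.Icc 1 N, (n : ℂ) ^ (-((b : ℂ) + t * I))) * Mx X ((b : ℂ) + t * I)‖ ≤
        11 * u₁ ^ (-(13 / 40) : ℝ) := by
      rw [norm_mul]
      calc _ ≤ 11 * u₁ ^ (-(7 / 20) : ℝ) * u₁ ^ (1 / 40 : ℝ) :=
            mul_le_mul h1 (h2.trans hXu) (norm_nonneg _) (by positivity)
        _ = 11 * u₁ ^ (-(13 / 40) : ℝ) := by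
            rw [mul_assoc, ← Real.rpow_add hu0]
            norm_num
    have h6 := pow_le_pow_left₀ (norm_nonneg _) h5 2
    have h7 : (11 * u₁ ^ (-(13 / 40) : ℝ)) ^ 2 = 121 * u₁ ^ (-(13 / 20) : ℝ) := by
      rw [mul_pow, ← Real.rpow_natCast (u₁ ^ _), ← Real.rpow_mul hu0.le]
      norm_num
    rw [h7] at h6
    linarith
  -- continuity
  have hc1 : ContinuousOn (fun t : ℝ =>
      ‖riemannZeta ((b : ℂ) + t * I) * Mx X ((b : ℂ) + t * I) - 1‖ ^ 2)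
      (Set.uIcc (u₁ - 1) (u₂ + 1)) := by
    rw [Set.uIcc_of_le hA]
    have hline : Continuous (fun t : ℝ => (b : ℂ) + t * I) := by fun_prop
    refine ContinuousOn.pow (ContinuousOn.norm (ContinuousOn.sub (ContinuousOn.mul ?_ ?_)
      continuousOn_const)) 2
    · intro t ht
      have hs1 : (b : ℂ) + t * I ≠ 1 := by
        intro h
        have h' := congrArg Complex.im h
        have him : ((b : ℂ) + t * I).im = t := by simp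
        rw [him, one_im] at h'
        linarith [ht.1]
      exact ((differentiableAt_riemannZeta hs1).continuousAt.comp
        (f := fun t : ℝ => (b : ℂ) + t * I) hline.continuousAt).continuousWithinAt
    · exact ((Mx_diff X).continuous.comp hline).continuousOn
  have hc2 : Continuous (fun t : ℝ =>
      ‖∑ n ∈ Finset.Icc 1 (N * X), FSq_a X N b n * (n : ℂ) ^ (-((t : ℂ) * I))‖ ^ 2) := by
    refine Continuous.pow (Continuous.norm (continuous_finsetSum _ fun n hn => ?_)) 2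
    refine continuous_const.mul ?_
    have hn0 : (n : ℂ) ≠ 0 := by
      have : n ≠ 0 := by
        have := (Finset.mem_Icc.1 hn).1
        omega
      exact_mod_cast this
    exact Continuous.const_cpow (by fun_prop) (Or.inl hn0)
  have hc3 : Continuous (fun t : ℝ =>
      2 * ‖∑ n ∈ Finset.Icc 1 (N * X), FSq_a X N b n * (n : ℂ) ^ (-((t : ℂ) * I))‖ ^ 2) :=
    continuous_const.mul hc2
  have hc4 : Continuous (fun _ : ℝ => 242 * u₁ ^ (-(13 / 20) : ℝ)) := continuous_const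
  have hc5 : Continuous (fun t : ℝ =>
      2 * ‖∑ n ∈ Finset.Icc 1 (N * X), FSq_a X N b n * (n : ℂ) ^ (-((t : ℂ) * I))‖ ^ 2 +
        242 * u₁ ^ (-(13 / 20) : ℝ)) := hc3.add hc4
  have hint : ∫ t in (u₁ - 1)..(u₂ + 1),
      ‖riemannZeta ((b : ℂ) + t * I) * Mx X ((b : ℂ) + t * I) - 1‖ ^ 2 ≤
      ∫ t in (u₁ - 1)..(u₂ + 1),
        (2 * ‖∑ n ∈ Finset.Icc 1 (N * X), FSq_a X N b n * (n : ℂ) ^ (-((t : ℂ) * I))‖ ^ 2 +
          242 * u₁ ^ (-(13 / 20) : ℝ)) :=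
    intervalIntegral.integral_mono_on hA hc1.intervalIntegrable
      (hc5.intervalIntegrable _ _) hpt
  rw [intervalIntegral.integral_add (hc3.intervalIntegrable _ _)
    (hc4.intervalIntegrable _ _), intervalIntegral.integral_const_mul,
    intervalIntegral.integral_const, smul_eq_mul] at hint
  have hm := hmv (N * X) D (FSq_a X N b) hNX (by linarith)
    (fun n hn => FSq_norm hD hdiv hb (Finset.mem_Icc.1 hn).1) (u₁ - 1) (u₂ + 1) hA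
  have hsq := FSq_sq (N := N) hX hD hdiv hb (N * X)
  rw [← hK] at hsq
  -- the three terms
  have hL : u₂ + 1 - (u₁ - 1) ≤ 3 * (u₂ - u₁) := by linarith
  have hL0 : 0 ≤ u₂ + 1 - (u₁ - 1) := by linarith
  have hP0 : 0 ≤ (X : ℝ) ^ (-(1 / 2) : ℝ) := by positivity
  have e1 : (u₂ + 1 - (u₁ - 1)) * ∑ n ∈ Finset.Icc 1 (N * X), ‖FSq_a X N b n‖ ^ 2 ≤
      3 * D ^ 2 * K * ((X : ℝ) ^ (-(1 / 2) : ℝ) * (u₂ - u₁)) := by
    calc _ ≤ (3 * (u₂ - u₁)) * (D ^ 2 * K * (X : ℝ) ^ (-(1 / 2) : ℝ)) :=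
          mul_le_mul hL hsq (Finset.sum_nonneg fun n _ => by positivity) (by linarith)
      _ = _ := by ring
  have e2 : ((N * X : ℕ) : ℝ) ^ (1 / 3 : ℝ) ≤ 2 * ((X : ℝ) ^ (-(1 / 2) : ℝ) * (u₂ - u₁)) := by
    have h1 : ((N * X : ℕ) : ℝ) ≤ 2 * u₁ ^ (61 / 40 : ℝ) := by
      push_cast
      calc (N : ℝ) * X ≤ (2 * u₁ ^ (3 / 2 : ℝ)) * u₁ ^ (1 / 40 : ℝ) :=
            mul_le_mul hN2 hXu (by positivity) (by positivity)
        _ = 2 * u₁ ^ (61 / 40 : ℝ) := by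
            rw [mul_assoc, ← Real.rpow_add hu0]
            norm_num
    have h2 : (2 : ℝ) ^ (1 / 3 : ℝ) ≤ 2 := by
      calc (2 : ℝ) ^ (1 / 3 : ℝ) ≤ 2 ^ (1 : ℝ) :=
            Real.rpow_le_rpow_of_exponent_le (by norm_num) (by norm_num)
        _ = 2 := Real.rpow_one 2
    calc ((N * X : ℕ) : ℝ) ^ (1 / 3 : ℝ) ≤ (2 * u₁ ^ (61 / 40 : ℝ)) ^ (1 / 3 : ℝ) :=
          Real.rpow_le_rpow (Nat.cast_nonneg _) h1 (by norm_num)
      _ = 2 ^ (1 / 3 : ℝ) * u₁ ^ (61 / 120 : ℝ) := by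
          rw [Real.mul_rpow (by norm_num) (by positivity), ← Real.rpow_mul hu0.le]
          norm_num
      _ ≤ 2 * u₁ ^ (47 / 80 : ℝ) := by
          refine mul_le_mul h2 ?_ (by positivity) (by norm_num)
          exact Real.rpow_le_rpow_of_exponent_le (by linarith) (by norm_num)
      _ = 2 * (u₁ ^ (-(1 / 80) : ℝ) * u₁ ^ (3 / 5 : ℝ)) := by
          rw [← Real.rpow_add hu0]
          norm_num
      _ ≤ 2 * ((X : ℝ) ^ (-(1 / 2) : ℝ) * (u₂ - u₁)) := by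
          refine mul_le_mul_of_nonneg_left ?_ (by norm_num)
          exact mul_le_mul hXh hlen (by positivity) hP0
  have e3 : (u₂ + 1 - (u₁ - 1)) * (242 * u₁ ^ (-(13 / 20) : ℝ)) ≤
      726 * ((X : ℝ) ^ (-(1 / 2) : ℝ) * (u₂ - u₁)) := by
    have h1 : u₁ ^ (-(13 / 20) : ℝ) ≤ (X : ℝ) ^ (-(1 / 2) : ℝ) :=
      (Real.rpow_le_rpow_of_exponent_le (by linarith) (by norm_num)).trans hXh
    calc _ ≤ (3 * (u₂ - u₁)) * (242 * (X : ℝ) ^ (-(1 / 2) : ℝ)) :=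
          mul_le_mul hL (by linarith) (by positivity) (by linarith)
      _ = _ := by ring
  have e4 : C₁ * D ^ 2 * ((N * X : ℕ) : ℝ) ^ (1 / 3 : ℝ) ≤
      C₁ * D ^ 2 * (2 * ((X : ℝ) ^ (-(1 / 2) : ℝ) * (u₂ - u₁))) :=
    mul_le_mul_of_nonneg_left e2 (by positivity)
  have e5 : 0 ≤ (X : ℝ) ^ (-(1 / 2) : ℝ) * (u₂ - u₁) := mul_nonneg hP0 (by linarith)
  refine hint.trans ?_
  have e6 : (10 + 6 * D ^ 2 * K + 4 * C₁ * D ^ 2 + 726) * (X : ℝ) ^ (-(1 / 2) : ℝ) * (u₂ - u₁) =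
      10 * ((X : ℝ) ^ (-(1 / 2) : ℝ) * (u₂ - u₁)) +
      2 * (3 * D ^ 2 * K * ((X : ℝ) ^ (-(1 / 2) : ℝ) * (u₂ - u₁))) +
      2 * (C₁ * D ^ 2 * (2 * ((X : ℝ) ^ (-(1 / 2) : ℝ) * (u₂ - u₁)))) +
      726 * ((X : ℝ) ^ (-(1 / 2) : ℝ) * (u₂ - u₁)) := by ring
  rw [e6]
  linarith

end Pool.Agent.Lib.MP_ec260d_ntD
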