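import Mathlib
import Pool.Agent.Lib.MP_ec260d_ntD.F.Defs
import Pool.Agent.Lib.MP_ec260d_ntD.F.FSq
import Pool.Agent.Lib.MP_ec260d_ntD.F.FDisc

/-!
# JOB F/FAvg: most heights are good (about 170 lines)

`η' = min (η/8) (1/8)`, `X = ⌊l ^ η'⌋₊` (`1 ≤ X`, `X → ∞` with `l`, `X ^ 40 ≤ l ^ 5 ≤ u₁`). `u₂ - u₁ ≥ u₁/l² ≥ u₁ ^ (3/5)` because `l² ≤ u₁ ^ (2/5)`.
(1) `g = ζ M_X - 1`: `sq_g` and `disc_sup` with `Q = C X^(-1/2) (u₂ - u₁)`, `A = 1/2`: off a set of measure `≤ 48 C X^(-1/2) (u₂ - u₁) ≤ (ε/2) (u₂ - u₁)` we have `‖ζ M_X - 1‖ ≤ 1/2` on the disc `‖z - (1 + i u)‖ ≤ 1/15`.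
(2) `g₁ = ζ M_1 - 1 = ζ - 1` (`Mx 1 s = 1`): `sq_g` with `X = 1` and `disc_sup` with `Q = C (u₂ - u₁)`, `A = l ^ (η/4) - 1 ≥ l ^ (η/4)/2` (large `l`): off a set of measure `≤ 48 C l^(-η/2) (u₂ - u₁) ≤ (ε/2)(u₂ - u₁)` we have `‖ζ‖ ≤ l ^ (η/4)` on the same disc.
(The functions are differentiable on the required box because `u₁ - 1 > 0`: `differentiableAt_riemannZeta`, `Mx_diff`.)
(3) Let `u` be outside of both sets, `|u' - u| ≤ 1/50`, `0 < s ≤ 1/50`, `z = 1 + s + i u'`: `‖z - (1 + i u)‖ ≤ √2/50 < 1/30`. `‖M_X z‖ ≤ X ≤ l^(η/8)` (`Mx_norm`), `‖ζ z M_X z‖ ≥ 1/2`, so `‖ζ z‖ ≥ 1/(2X) ≥ l ^ (-η)`; `‖ζ z‖ ≤ l^(η/4) ≤ l ^ η`.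
`ζ M_X` has derivative of norm `≤ (1/2)/(1/30) = 15` at `z` (Cauchy estimate for `ζ M_X - 1` on the circle of radius `1/30` about `z`, contained in the disc of radius `1/15` about `1 + i u`; `Complex.norm_deriv_le_of_forall_mem_sphere_norm_le`).
`ζ' M = (ζ M)' - ζ M'`, so `‖ζ'‖ ‖ζ M‖ = ‖ζ' M‖ ‖ζ‖ ≤ (15 + ‖ζ‖ X²) ‖ζ‖` (`Mx_deriv`), `‖ζ'‖ ≤ 2 (15 + l^(η/4) l^(η/4)) ‖ζ‖ ≤ l^η ‖ζ‖` for large `l`.
-/

namespace Pool.Agent.Lib.MP_ec260d_ntD

open Complex MeasureTheory Set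

/-- the pointwise statement: good bounds on the disc give good bounds at the point -/
private theorem FAvg_point (X : ℕ) (y L : ℝ) (u u' s : ℝ) (hu : 1 < u) (hX1 : 1 ≤ X) (hXy : (X : ℝ) ^ 2 ≤ y)
    (hy : 3 ≤ y) (hL : y ^ 4 = L) (hu' : |u' - u| ≤ 1 / 50) (hs0 : 0 < s) (hs : s ≤ 1 / 50)
    (h1 : ∀ z : ℂ, ‖z - (1 + u * I)‖ ≤ 1 / 15 → ‖riemannZeta z * Mx X z - 1‖ ≤ 1 / 2)
    (h2 : ∀ z : ℂ, ‖z - (1 + u * I)‖ ≤ 1 / 15 → ‖riemannZeta z‖ ≤ y) :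
    ‖riemannZeta (((1 + s : ℝ) : ℂ) + u' * I)‖ ≤ L ∧
    L⁻¹ ≤ ‖riemannZeta (((1 + s : ℝ) : ℂ) + u' * I)‖ ∧
    ‖deriv riemannZeta (((1 + s : ℝ) : ℂ) + u' * I)‖ ≤ L * ‖riemannZeta (((1 + s : ℝ) : ℂ) + u' * I)‖ := by
  set z : ℂ := ((1 + s : ℝ) : ℂ) + u' * I with hz
  have hzre : z.re = 1 + s := by
    rw [hz]
    simp
  have hzim : z.im = u' := by
    rw [hz]
    simp
  have hX1r : (1 : ℝ) ≤ (X : ℝ) := by exact_mod_cast hX1
  have hXX : (X : ℝ) ≤ (X : ℝ) ^ 2 := by nlinarith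
  have hd : ‖z - (1 + u * I)‖ ≤ 1 / 30 := by
    have e1 : (z - (1 + u * I)).re = s := by
      rw [Complex.sub_re, hzre]
      simp
    have e2 : (z - (1 + u * I)).im = u' - u := by
      rw [Complex.sub_im, hzim]
      simp
    have e3 : ‖z - (1 + u * I)‖ ^ 2 = s ^ 2 + (u' - u) ^ 2 := by
      rw [Complex.sq_norm, Complex.normSq_apply, e1, e2]
      ring
    have e4 : (u' - u) ^ 2 ≤ (1 / 50) ^ 2 := by
      rw [← sq_abs]
      exact pow_le_pow_left₀ (abs_nonneg _) hu' 2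
    have e5 : s ^ 2 ≤ (1 / 50) ^ 2 := pow_le_pow_left₀ hs0.le hs 2
    apply le_of_sq_le_sq _ (by norm_num)
    rw [e3]
    norm_num at e4 e5 ⊢
    linarith
  have hdisc : ∀ w : ℂ, ‖w - z‖ ≤ 1 / 30 → ‖w - (1 + u * I)‖ ≤ 1 / 15 := by
    intro w hw
    have h3 := norm_add_le (w - z) (z - (1 + u * I))
    rw [sub_add_sub_cancel] at h3
    linarith
  have hz0 : ‖z - (1 + u * I)‖ ≤ 1 / 15 := by linarith
  have hne : ∀ w : ℂ, ‖w - z‖ ≤ 1 / 30 → w ≠ 1 := by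
    intro w hw h3
    have h4 := (Complex.abs_im_le_norm (w - z)).trans hw
    rw [Complex.sub_im, hzim, h3, Complex.one_im, abs_le] at h4
    rw [abs_le] at hu'
    linarith [h4.1, hu'.1]
  have hzne : z ≠ 1 := hne z (by rw [sub_self, norm_zero]; norm_num)
  have a1 := h1 z hz0
  have a2 := h2 z hz0
  have hM := Mx_norm X z (by rw [hzre]; linarith)
  have hM' := Mx_deriv X z (by rw [hzre]; linarith)
  have hhalf : 1 / 2 ≤ ‖riemannZeta z‖ * ‖Mx X z‖ := by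
    rw [← norm_mul]
    have h3 := norm_sub_norm_le (1 : ℂ) (1 - riemannZeta z * Mx X z)
    rw [sub_sub_cancel, norm_one, norm_sub_rev] at h3
    linarith
  have hζX : 1 / 2 ≤ ‖riemannZeta z‖ * X :=
    hhalf.trans (mul_le_mul_of_nonneg_left hM (norm_nonneg _))
  have hX0 : (0 : ℝ) < X := by linarith
  have hζ0 : 0 < ‖riemannZeta z‖ := by
    by_contra h3
    have h4 : ‖riemannZeta z‖ * X ≤ 0 := mul_nonpos_of_nonpos_of_nonneg (not_lt.1 h3) hX0.le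
    linarith
  have hy4 : y ≤ y ^ 4 ∧ 2 * y ≤ y ^ 4 ∧ 2 * (15 + y * y) ≤ y ^ 4 := by
    have e1 : 9 ≤ y ^ 2 := by nlinarith
    have e2 : y ^ 4 = y ^ 2 * y ^ 2 := by ring
    refine ⟨?_, ?_, ?_⟩
    · rw [e2]
      nlinarith
    · rw [e2]
      nlinarith
    · rw [e2]
      nlinarith
  have hL0 : 0 < L := by
    rw [← hL]
    positivity
  refine ⟨?_, ?_, ?_⟩
  · rw [← hL]
    linarith [hy4.1]
  · rw [inv_le_iff_one_le_mul₀ hL0]
    have h3 : 2 * (X : ℝ) ≤ L := by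
      rw [← hL]
      linarith [hy4.2.1]
    nlinarith
  · -- the derivative
    have hGd : ∀ w : ℂ, ‖w - z‖ ≤ 1 / 30 → DifferentiableAt ℂ (fun w => riemannZeta w * Mx X w - 1) w := by
      intro w hw
      exact ((differentiableAt_riemannZeta (hne w hw)).mul (Mx_diff X w)).sub_const 1
    have hcl : DiffContOnCl ℂ (fun w => riemannZeta w * Mx X w - 1) (Metric.ball z (1 / 30)) := by
      refine DifferentiableOn.diffContOnCl ?_
      intro w hw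
      have h3 := Metric.closure_ball_subset_closedBall hw
      rw [Metric.mem_closedBall, dist_eq_norm] at h3
      exact (hGd w h3).differentiableWithinAt
    have hC := Complex.norm_deriv_le_of_forall_mem_sphere_norm_le (C := 1 / 2) (by norm_num) hcl (by
      intro w hw
      rw [mem_sphere_iff_norm] at hw
      exact h1 w (hdisc w hw.le))
    have hder : deriv (fun w => riemannZeta w * Mx X w - 1) z =
        deriv riemannZeta z * Mx X z + riemannZeta z * deriv (Mx X) z := by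
      have h3 := ((differentiableAt_riemannZeta hzne).hasDerivAt.mul (Mx_diff X z).hasDerivAt).sub_const 1
      exact h3.deriv
    rw [hder] at hC
    have h15 : (1 / 2 / (1 / 30) : ℝ) = 15 := by norm_num
    rw [h15] at hC
    have h4 : ‖deriv riemannZeta z‖ * ‖Mx X z‖ ≤ 15 + ‖riemannZeta z‖ * (X : ℝ) ^ 2 := by
      rw [← norm_mul]
      have e1 : deriv riemannZeta z * Mx X z = (deriv riemannZeta z * Mx X z + riemannZeta z * deriv (Mx X) z) -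
          riemannZeta z * deriv (Mx X) z := by ring
      rw [e1]
      refine (norm_sub_le _ _).trans ?_
      rw [norm_mul]
      have h5 := mul_le_mul_of_nonneg_left hM' (norm_nonneg (riemannZeta z))
      linarith
    have h5 : ‖riemannZeta z‖ * (X : ℝ) ^ 2 ≤ y * y :=
      mul_le_mul a2 hXy (by positivity) (by linarith)
    have h6 : ‖deriv riemannZeta z‖ * (‖riemannZeta z‖ * ‖Mx X z‖) ≤ (15 + y * y) * ‖riemannZeta z‖ := by
      have e1 : ‖deriv riemannZeta z‖ * (‖riemannZeta z‖ * ‖Mx X z‖) =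
          (‖deriv riemannZeta z‖ * ‖Mx X z‖) * ‖riemannZeta z‖ := by ring
      rw [e1]
      exact mul_le_mul_of_nonneg_right (by linarith) hζ0.le
    have h7 : ‖deriv riemannZeta z‖ * (1 / 2) ≤ ‖deriv riemannZeta z‖ * (‖riemannZeta z‖ * ‖Mx X z‖) :=
      mul_le_mul_of_nonneg_left hhalf (norm_nonneg _)
    rw [← hL]
    have h8 : 2 * (15 + y * y) * ‖riemannZeta z‖ ≤ y ^ 4 * ‖riemannZeta z‖ :=
      mul_le_mul_of_nonneg_right hy4.2.2 hζ0.le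
    linarith

private theorem FAvg_Mx1 (s : ℂ) : Mx 1 s = 1 := by
  unfold Mx
  simp

theorem far_avg (η ε : ℝ) (hη : 0 < η) (hε : 0 < ε) : ∃ l₀ : ℝ, 2 ≤ l₀ ∧ ∀ l : ℝ, l₀ ≤ l → ∀ u₁ u₂ : ℝ,
    l ^ 5 ≤ u₁ → u₂ ≤ 3 * u₁ → u₁ / l ^ 2 ≤ u₂ - u₁ →
      volume {u : ℝ | u ∈ Icc u₁ u₂ ∧ ¬ FarOK η l u} ≤ ENNReal.ofReal (ε * (u₂ - u₁)) := by
  obtain ⟨C, hC1, hsq⟩ := sq_g
  set η' : ℝ := min (η / 8) (1 / 8) with hη'
  have hη0 : 0 < η' := lt_min (by linarith) (by norm_num)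
  have hη4 : 0 < η / 4 := by linarith
  have hη8 : η' ≤ η / 8 := min_le_left _ _
  have hη1 : η' ≤ 1 / 8 := min_le_right _ _
  have hC0 : 0 < C := by linarith
  set K1 : ℝ := 2 * (96 * C / ε) ^ 2 + 2 with hK1
  set K2 : ℝ := 96 * C / ε + 3 with hK2
  have hev : ∀ᶠ l : ℝ in Filter.atTop, 2 ≤ l ∧ C ≤ l ∧ K1 ≤ l ^ η' ∧ K2 ≤ l ^ (η / 4) := by
    filter_upwards [Filter.eventually_ge_atTop 2, Filter.eventually_ge_atTop C,
      (tendsto_rpow_atTop hη0).eventually_ge_atTop K1,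
      (tendsto_rpow_atTop hη4).eventually_ge_atTop K2] with l a b c d
    exact ⟨a, b, c, d⟩
  obtain ⟨l₀, hl₀⟩ := Filter.eventually_atTop.1 hev
  refine ⟨max l₀ 2, le_max_right _ _, ?_⟩
  intro l hl u₁ u₂ h5 h3 hdiv
  obtain ⟨hl2, hlC, hk1, hk2⟩ := hl₀ l ((le_max_left _ _).trans hl)
  have hl0 : 0 < l := by linarith
  have hl1 : 1 ≤ l := by linarith
  set y : ℝ := l ^ (η / 4) with hy
  have hq0 : 0 < 96 * C / ε := by positivity
  have hy3 : 3 ≤ y := by linarith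
  set X : ℕ := ⌊l ^ η'⌋₊ with hX
  have hlη : 1 ≤ l ^ η' := Real.one_le_rpow hl1 hη0.le
  have hXle : (X : ℝ) ≤ l ^ η' := Nat.floor_le (by linarith)
  have hX1 : 1 ≤ X := Nat.le_floor (by exact_mod_cast hlη)
  have hXge : l ^ η' / 2 ≤ X := by
    have h6 := Nat.lt_floor_add_one (l ^ η')
    rw [← hX] at h6
    have h7 : (1 : ℝ) ≤ (X : ℝ) := by exact_mod_cast hX1
    linarith
  have hX0 : (0 : ℝ) < (X : ℝ) := by exact_mod_cast hX1
  have hl5 : l ≤ l ^ 5 := by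
    have : l ^ 5 = l * l ^ 4 := by ring
    rw [this]
    have h4 : 1 ≤ l ^ 4 := one_le_pow₀ hl1
    nlinarith
  have hu32 : 32 ≤ u₁ := by
    have : (2 : ℝ) ^ 5 ≤ l ^ 5 := pow_le_pow_left₀ (by norm_num) hl2 5
    norm_num at this
    linarith
  have hu0 : 0 < u₁ := by linarith
  have hCu : C ≤ u₁ := by linarith
  have hlη40 : (l ^ η') ^ 40 ≤ l ^ 5 := by
    rw [← Real.rpow_natCast, ← Real.rpow_mul hl0.le, ← Real.rpow_natCast l 5]
    apply Real.rpow_le_rpow_of_exponent_le hl1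
    push_cast
    linarith
  have hX40 : (X : ℝ) ^ 40 ≤ u₁ := (pow_le_pow_left₀ hX0.le hXle 40).trans (hlη40.trans h5)
  have hXy : (X : ℝ) ^ 2 ≤ y := by
    refine (pow_le_pow_left₀ hX0.le hXle 2).trans ?_
    rw [hy, ← Real.rpow_natCast, ← Real.rpow_mul hl0.le]
    apply Real.rpow_le_rpow_of_exponent_le hl1
    push_cast
    linarith
  have hyL : y ^ 4 = l ^ η := by
    rw [hy, ← Real.rpow_natCast, ← Real.rpow_mul hl0.le]
    congr 1
    push_cast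
    ring
  -- the length of the interval
  have hlen : u₁ ^ (3 / 5 : ℝ) ≤ u₂ - u₁ := by
    refine le_trans ?_ hdiv
    rw [le_div_iff₀ (by positivity)]
    have e1 : l ≤ u₁ ^ (1 / 5 : ℝ) := by
      have h6 : (l ^ 5) ^ (1 / 5 : ℝ) ≤ u₁ ^ (1 / 5 : ℝ) :=
        Real.rpow_le_rpow (by positivity) h5 (by norm_num)
      have h7 : (l ^ 5) ^ (1 / 5 : ℝ) = l := by
        rw [← Real.rpow_natCast, ← Real.rpow_mul hl0.le]
        norm_num
      rw [h7] at h6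
      exact h6
    have e2 : l ^ 2 ≤ u₁ ^ (2 / 5 : ℝ) := by
      refine (pow_le_pow_left₀ hl0.le e1 2).trans (le_of_eq ?_)
      rw [← Real.rpow_natCast, ← Real.rpow_mul hu0.le]
      norm_num
    calc u₁ ^ (3 / 5 : ℝ) * l ^ 2 ≤ u₁ ^ (3 / 5 : ℝ) * u₁ ^ (2 / 5 : ℝ) :=
          mul_le_mul_of_nonneg_left e2 (by positivity)
      _ = u₁ := by
          rw [← Real.rpow_add hu0]
          norm_num
  have hD0 : 0 ≤ u₂ - u₁ := le_trans (by positivity) hlen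
  have h12 : u₁ ≤ u₂ := by linarith
  -- the two exceptional sets
  have hdiff : ∀ (Y : ℕ) (s : ℂ), 9 / 10 ≤ s.re → s.re ≤ 11 / 10 → u₁ - 1 ≤ s.im → s.im ≤ u₂ + 1 →
      DifferentiableAt ℂ (fun s => riemannZeta s * Mx Y s - 1) s := by
    intro Y s _ _ h6 _
    have hs1 : s ≠ 1 := by
      intro h7
      rw [h7, Complex.one_im] at h6
      linarith
    exact ((differentiableAt_riemannZeta hs1).mul (Mx_diff Y s)).sub_const 1
  have hS1 := disc_sup (fun s => riemannZeta s * Mx X s - 1) u₁ u₂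
    (C * (X : ℝ) ^ (-(1 / 2) : ℝ) * (u₂ - u₁)) (1 / 2) h12 (by positivity) (by norm_num) (hdiff X)
    (fun b hb1 hb2 => hsq X u₁ u₂ b hX1 hCu hX40 h3 hlen hb1 hb2)
  have hS2 := disc_sup (fun s => riemannZeta s * Mx 1 s - 1) u₁ u₂
    (C * ((1 : ℕ) : ℝ) ^ (-(1 / 2) : ℝ) * (u₂ - u₁)) (y / 2) h12 (by positivity) (by positivity) (hdiff 1)
    (fun b hb1 hb2 => hsq 1 u₁ u₂ b (le_refl 1) hCu (by norm_num; linarith) h3 hlen hb1 hb2)
  have hsub : {u : ℝ | u ∈ Icc u₁ u₂ ∧ ¬ FarOK η l u} ⊆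
      {u : ℝ | u ∈ Icc u₁ u₂ ∧ ∃ z : ℂ, ‖z - (1 + u * I)‖ ≤ 1 / 15 ∧
        1 / 2 < ‖riemannZeta z * Mx X z - 1‖} ∪
      {u : ℝ | u ∈ Icc u₁ u₂ ∧ ∃ z : ℂ, ‖z - (1 + u * I)‖ ≤ 1 / 15 ∧
        y / 2 < ‖riemannZeta z * Mx 1 z - 1‖} := by
    rintro u ⟨hu, hnot⟩
    by_contra hout
    rw [mem_union, not_or] at hout
    obtain ⟨o1, o2⟩ := hout
    apply hnot
    have g1 : ∀ z : ℂ, ‖z - (1 + u * I)‖ ≤ 1 / 15 → ‖riemannZeta z * Mx X z - 1‖ ≤ 1 / 2 := by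
      intro z hz
      by_contra h6
      exact o1 ⟨hu, z, hz, not_le.1 h6⟩
    have g2 : ∀ z : ℂ, ‖z - (1 + u * I)‖ ≤ 1 / 15 → ‖riemannZeta z‖ ≤ y := by
      intro z hz
      have h6 : ‖riemannZeta z * Mx 1 z - 1‖ ≤ y / 2 := by
        by_contra h7
        exact o2 ⟨hu, z, hz, not_le.1 h7⟩
      rw [FAvg_Mx1, mul_one] at h6
      have h7 := norm_le_norm_add_norm_sub' (riemannZeta z) 1
      rw [norm_one] at h7
      linarith
    intro u' s hu' hs0 hs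
    have h8 := FAvg_point X y (l ^ η) u u' s (by linarith [hu.1]) hX1 hXy hy3 hyL hu' hs0 hs g1 g2
    refine ⟨h8.1, ?_, h8.2.2⟩
    rw [Real.rpow_neg hl0.le]
    exact h8.2.1
  refine (measure_mono hsub).trans ((measure_union_le _ _).trans ((add_le_add hS1 hS2).trans ?_))
  rw [← ENNReal.ofReal_add (by positivity) (by positivity)]
  apply ENNReal.ofReal_le_ofReal
  have c1 : 12 * (C * (X : ℝ) ^ (-(1 / 2) : ℝ) * (u₂ - u₁)) / (1 / 2) ^ 2 ≤ ε / 2 * (u₂ - u₁) := by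
    have e1 : (X : ℝ) ^ (-(1 / 2) : ℝ) ≤ ε / (96 * C) := by
      rw [Real.rpow_neg hX0.le, ← Real.sqrt_eq_rpow]
      have h6 : 96 * C / ε ≤ Real.sqrt X := by
        apply Real.le_sqrt_of_sq_le
        refine le_trans ?_ hXge
        rw [le_div_iff₀ (by norm_num)]
        linarith
      have h7 := inv_anti₀ hq0 h6
      rw [inv_div] at h7
      exact h7
    have e2 : 12 * (C * (X : ℝ) ^ (-(1 / 2) : ℝ) * (u₂ - u₁)) / (1 / 2) ^ 2 =
        48 * C * (u₂ - u₁) * (X : ℝ) ^ (-(1 / 2) : ℝ) := by ring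
    rw [e2]
    have h6 := mul_le_mul_of_nonneg_left e1 (show 0 ≤ 48 * C * (u₂ - u₁) by positivity)
    refine h6.trans (le_of_eq ?_)
    field_simp
    ring
  have c2 : 12 * (C * ((1 : ℕ) : ℝ) ^ (-(1 / 2) : ℝ) * (u₂ - u₁)) / (y / 2) ^ 2 ≤ ε / 2 * (u₂ - u₁) := by
    rw [Nat.cast_one, Real.one_rpow, mul_one]
    have hyy : 96 * C / ε ≤ y ^ 2 := by
      have : y ≤ y ^ 2 := by nlinarith
      linarith
    have hyy2 : 96 * C ≤ ε * y ^ 2 := by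
      rw [div_le_iff₀ hε] at hyy
      linarith
    rw [div_le_iff₀ (by positivity)]
    have h6 := mul_le_mul_of_nonneg_right hyy2 hD0
    nlinarith
  have c3 : ε * (u₂ - u₁) = ε / 2 * (u₂ - u₁) + ε / 2 * (u₂ - u₁) := by ring
  rw [c3]
  exact add_le_add c1 c2

end Pool.Agent.Lib.MP_ec260d_ntD
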