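import Mathlib
import Pool.Agent.Lib.MP_9c2ea5_nt.ALip2
import Pool.Agent.Lib.MP_9c2ea5_nt.AMert
import Pool.Agent.Lib.MP_9c2ea5_nt.AStep

/-!
# JOB F/FLow: zeta to the right of the line `Re s = 1`, bounds by powers of the logarithm (about 150 lines)

Everything is in `Pool.Agent.Lib.MP_9c2ea5_nt.An`: `zeta1_logDeriv` (AZlow.lean), `mert_zeta` (AMert.lean), `zeta0_bd`, `zeta0_deriv`, `zeta0_lip` (ALip2.lean), `zeta0_upper` (AZup.lean); `riemannZeta₁ s = (s - 1) * riemannZeta s` and `riemannZeta s = (s - 1)⁻¹ + riemannZeta₀ s` for `s ≠ 1`.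
Let `L = log (|t| + 3) ≥ log 4 > 1.38`, `l = 4 + 2 L ≤ 5 L`; then `e ^ l = e^4 (|t| + 3)^2 ≥ 2 (2 |t| + 1) + 5`. Let `s = 1 + x + t I`, `‖s - 1‖ ≥ |t| ≥ 1`.
(1) Upper bound: `‖ζ(s)‖ ≤ 1 + 10 l ≤ C L`, also at `1 + x + 2 t I`.
(2) Logarithmic derivative: `ζ₁'/ζ₁ = 1/(s - 1) + ζ'/ζ`, so `‖ζ'(s)‖ ≤ (10^19 l^9 + 1) ‖ζ(s)‖ ≤ C L^9 ‖ζ(s)‖` (`deriv` of `(s - 1) ζ(s)` near `s`; `differentiableAt_riemannZeta`).
(3) Lower bound: `x₀ = c / L^9` with a small absolute constant `c`. If `x ≥ x₀`: `mert_zeta` gives `‖ζ(s)‖^4 ≥ (x/2)^3/(1 + 10 l) ≥ (x₀/2)^3/(C L)`, so `‖ζ(s)‖ ≥ (c^3/C')^(1/4) L^(-7)`. If `x < x₀`: `‖ζ(s)‖ ≥ ‖ζ(1 + x₀ + t I)‖ - ‖ζ(1 + x₀ + t I) - ζ(s)‖` and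
`‖ζ(1 + x₀ + t I) - ζ(s)‖ ≤ (20 l^2 + 1) x₀ ≤ C'' c L^(-7)` (`zeta0_lip`, and `‖(s - 1)⁻¹ - (s' - 1)⁻¹‖ = ‖s - s'‖/(‖s - 1‖ ‖s' - 1‖) ≤ ‖s - s'‖`), which is at most one half of `(c^3/C')^(1/4) L^(-7)` if `c` is small. As `L ≥ 1`: `L^(-7) ≥ L^(-9)`.
(Compare the proof of the lower bound in the middle of `zeta1_logDeriv`.)
-/

namespace Pool.Agent.Lib.MP_ec260d_ntD

open Complex

private theorem FLow_exp {t : ℝ} : 2 * |t| + 5 ≤ Real.exp (4 + 2 * Real.log (|t| + 3)) := by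
  have ht : 0 ≤ |t| := abs_nonneg t
  have h1 : Real.exp (2 * Real.log (|t| + 3)) = (|t| + 3) ^ 2 := by
    rw [show (2 : ℝ) * Real.log (|t| + 3) = ((2 : ℕ) : ℝ) * Real.log (|t| + 3) by norm_num,
      Real.exp_nat_mul, Real.exp_log (by linarith)]
  rw [Real.exp_add, h1]
  have h2 : (1 : ℝ) ≤ Real.exp 4 := Real.one_le_exp (by norm_num)
  have h3 : (|t| + 3) ^ 2 ≤ Real.exp 4 * (|t| + 3) ^ 2 :=
    le_mul_of_one_le_left (by positivity) h2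
  nlinarith

private theorem FLow_log {t : ℝ} (ht : 1 ≤ |t|) : 4 / 3 ≤ Real.log (|t| + 3) := by
  have h1 : Real.log 4 ≤ Real.log (|t| + 3) := Real.log_le_log (by norm_num) (by linarith)
  have h2 : Real.log 4 = 2 * Real.log 2 := by
    rw [show (4 : ℝ) = 2 ^ 2 by norm_num, Real.log_pow]
    norm_num
  linarith [Real.log_two_gt_d9]

private theorem FLow_ne {z : ℂ} {t : ℝ} (ht : 1 ≤ |t|) (hz : z.im = t) :
    z - 1 ≠ 0 ∧ 1 ≤ ‖z - 1‖ := by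
  have h3 : |(z - 1).im| ≤ ‖z - 1‖ := Complex.abs_im_le_norm _
  rw [Complex.sub_im, Complex.one_im, sub_zero, hz] at h3
  have h4 : 1 ≤ ‖z - 1‖ := le_trans ht h3
  exact ⟨norm_pos_iff.1 (by linarith), h4⟩

private theorem FLow_low (l t : ℝ) (hl : 4 ≤ l) (ht : 1 ≤ |t|) (hm : 2 * |t| + 5 ≤ Real.exp l)
    (x : ℝ) (hx : 0 < x) (hx1 : x ≤ 1) :
    2 * (1620 * l ^ 2) * (1 / (10 ^ 18 * l ^ 9)) ≤
      ‖riemannZeta (((1 + x : ℝ) : ℂ) + t * I)‖ := by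
  have hl0 : 0 < l := by linarith
  have hl1 : 1 ≤ l := by linarith
  have hp8 : 1 ≤ l ^ 8 := one_le_pow₀ hl1
  set x0 : ℝ := 1 / (10 ^ 18 * l ^ 9) with hx0
  have hx0p : 0 < x0 := by rw [hx0]; positivity
  have hx0l : x0 ≤ 1 / (80 * l) := by
    rw [hx0]
    apply one_div_le_one_div_of_le (by positivity)
    nlinarith
  have h80 : 1 / (80 * l) ≤ 1 / (2 * l) := one_div_le_one_div_of_le (by positivity) (by linarith)
  have h2l' : 1 / (2 * l) ≤ 1 / 2 := one_div_le_one_div_of_le (by norm_num) (by linarith)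
  have hmT : |t| + 5 ≤ Real.exp l := by linarith
  refine MP_9c2ea5_nt.An.step341 riemannZeta t x0 (1620 * l ^ 2) (30 * l) hx0p (by linarith)
    (by positivity) (by positivity) ?_ ?_ ?_ (1 + x) (by linarith) (by linarith)
  · rw [hx0]
    have : 2048 * (1620 * l ^ 2) ^ 4 * (30 * l) * (1 / (10 ^ 18 * l ^ 9)) =
        (2048 * 1620 ^ 4 * 30 / 10 ^ 18 : ℝ) := by
      field_simp
    rw [this]
    norm_num
  · intro x hx hx1
    have hxp : 0 < x := lt_of_lt_of_le hx0p hx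
    refine le_trans (MP_9c2ea5_nt.An.mert_zeta x t hxp hx1) ?_
    apply mul_le_mul_of_nonneg_left _ (by positivity)
    set z : ℂ := ((1 + x : ℝ) : ℂ) + ((2 * t : ℝ) : ℂ) * I with hz
    have hzre : z.re = 1 + x := by simp [hz]
    have hzim : z.im = 2 * t := by simp [hz]
    have h2t : 1 ≤ |2 * t| := by
      rw [abs_mul, abs_two]
      linarith
    obtain ⟨hz1, hnz⟩ := FLow_ne h2t hzim
    rw [riemannZeta_eq_inv_sub_add (sub_ne_zero.1 hz1)]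
    refine le_trans (norm_add_le _ _) ?_
    have h3 : ‖(z - 1)⁻¹‖ ≤ 1 := by
      rw [norm_inv]
      exact inv_le_one_of_one_le₀ hnz
    have h4 : ‖riemannZeta₀ z‖ ≤ 10 * l := by
      apply MP_9c2ea5_nt.An.zeta0_bd l (2 * |t|) hl hm z
      · rw [hzre]
        have : 0 < 1 / l := by positivity
        linarith
      · rw [hzim, abs_mul, abs_two]
        linarith
    linarith
  · intro σ₁ σ₂ h1 h1' h2 h2'
    set z1 : ℂ := (σ₁ : ℂ) + t * I with hz1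
    set z2 : ℂ := (σ₂ : ℂ) + t * I with hz2
    have hre1 : z1.re = σ₁ := by simp [hz1]
    have hre2 : z2.re = σ₂ := by simp [hz2]
    have him1 : z1.im = t := by simp [hz1]
    have him2 : z2.im = t := by simp [hz2]
    obtain ⟨hn1, hb1⟩ := FLow_ne ht him1
    obtain ⟨hn2, hb2⟩ := FLow_ne ht him2
    have hdiff : z1 - z2 = ((σ₁ - σ₂ : ℝ) : ℂ) := by
      rw [hz1, hz2]; push_cast; ring
    have hnd : ‖z1 - z2‖ = |σ₁ - σ₂| := by
      rw [hdiff, Complex.norm_real, Real.norm_eq_abs]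
    rw [riemannZeta_eq_inv_sub_add (sub_ne_zero.1 hn1), riemannZeta_eq_inv_sub_add (sub_ne_zero.1 hn2)]
    have e1 : (z1 - 1)⁻¹ + riemannZeta₀ z1 - ((z2 - 1)⁻¹ + riemannZeta₀ z2) =
        -((z1 - z2) / ((z1 - 1) * (z2 - 1))) + (riemannZeta₀ z1 - riemannZeta₀ z2) := by
      field_simp
      ring
    rw [e1]
    refine le_trans (norm_add_le _ _) ?_
    have h3 : ‖riemannZeta₀ z1 - riemannZeta₀ z2‖ ≤ 20 * l ^ 2 * |σ₁ - σ₂| := by
      rw [← hnd]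
      apply MP_9c2ea5_nt.An.zeta0_lip l |t| hl hmT z1 z2
      · rw [hre1]; linarith
      · rw [him1]
      · rw [hre2]; linarith
      · rw [him2]
    have h4 : ‖-((z1 - z2) / ((z1 - 1) * (z2 - 1)))‖ ≤ 1 * |σ₁ - σ₂| := by
      rw [norm_neg, norm_div, norm_mul, hnd]
      have h5 : (1 : ℝ) ≤ ‖z1 - 1‖ * ‖z2 - 1‖ := one_le_mul_of_one_le_of_one_le hb1 hb2
      rw [div_le_iff₀ (lt_of_lt_of_le one_pos h5), one_mul]
      exact le_mul_of_one_le_right (abs_nonneg _) h5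
    have h6 : 1 ≤ l ^ 2 := one_le_pow₀ hl1
    have h7 : 1 * |σ₁ - σ₂| ≤ l ^ 2 * |σ₁ - σ₂| :=
      mul_le_mul_of_nonneg_right h6 (abs_nonneg _)
    have h8 : 0 ≤ l ^ 2 * |σ₁ - σ₂| := by positivity
    linarith

private theorem FLow_deriv {s : ℂ} (hs : s ≠ 1) :
    deriv riemannZeta s = -(s - 1)⁻¹ ^ 2 + deriv riemannZeta₀ s := by
  have h0 : HasDerivAt riemannZeta₀ (deriv riemannZeta₀ s) s :=
    (differentiable_riemannZeta₀ s).hasDerivAt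
  have h1 : HasDerivAt (fun z : ℂ => z - 1) 1 s := (hasDerivAt_id s).sub_const 1
  have h2 : HasDerivAt (fun z : ℂ => (z - 1)⁻¹ + riemannZeta₀ z)
      (-1 / (s - 1) ^ 2 + deriv riemannZeta₀ s) s := (h1.fun_inv (sub_ne_zero.2 hs)).add h0
  have h3 : riemannZeta =ᶠ[nhds s] fun z : ℂ => (z - 1)⁻¹ + riemannZeta₀ z := by
    filter_upwards [isOpen_ne.mem_nhds hs] with z hz
    exact riemannZeta_eq_inv_sub_add hz
  rw [h3.deriv_eq, h2.deriv]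
  congr 1
  rw [inv_pow, neg_div, one_div]

theorem zeta_polylog : ∃ C : ℝ, 1 ≤ C ∧ ∀ t x : ℝ, 1 ≤ |t| → 0 < x → x ≤ 1 →
    (C * Real.log (|t| + 3) ^ 9)⁻¹ ≤ ‖riemannZeta (((1 + x : ℝ) : ℂ) + t * I)‖ ∧
      ‖riemannZeta (((1 + x : ℝ) : ℂ) + t * I)‖ ≤ C * Real.log (|t| + 3) ∧
      ‖deriv riemannZeta (((1 + x : ℝ) : ℂ) + t * I)‖ ≤ C * Real.log (|t| + 3) ^ 9 * ‖riemannZeta (((1 + x : ℝ) : ℂ) + t * I)‖ := by
  refine ⟨10 ^ 23, by norm_num, fun t x ht hx hx1 => ?_⟩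
  have hexp := FLow_exp (t := t)
  have hL := FLow_log ht
  set L : ℝ := Real.log (|t| + 3) with hLd
  set l : ℝ := 4 + 2 * L with hld
  have hL0 : 0 < L := by linarith
  have hL1 : 1 ≤ L := by linarith
  have hl4 : 4 ≤ l := by linarith
  have hl0 : 0 < l := by linarith
  have hl1 : 1 ≤ l := by linarith
  have hlL : l ≤ 5 * L := by linarith
  have hlow := FLow_low l t hl4 ht hexp x hx hx1
  set s : ℂ := ((1 + x : ℝ) : ℂ) + t * I with hs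
  have hsre : s.re = 1 + x := by simp [hs]
  have hsim : s.im = t := by simp [hs]
  obtain ⟨hs1, hns⟩ := FLow_ne ht hsim
  have hl9 : l ^ 9 ≤ 1953125 * L ^ 9 := by
    calc l ^ 9 ≤ (5 * L) ^ 9 := pow_le_pow_left₀ hl0.le hlL 9
      _ = 1953125 * L ^ 9 := by ring
  have h1l : 0 < 1 / l := by positivity
  have h12l : 0 < 1 / (2 * l) := by positivity
  have hmT : |t| + 5 ≤ Real.exp l := by linarith [abs_nonneg t]
  have hZ0 : ‖riemannZeta₀ s‖ ≤ 10 * l :=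
    MP_9c2ea5_nt.An.zeta0_bd l |t| hl4 hmT s (by linarith) (by rw [hsim]; linarith)
  have hZ1 : ‖deriv riemannZeta₀ s‖ ≤ 20 * l ^ 2 :=
    MP_9c2ea5_nt.An.zeta0_deriv l |t| hl4 hmT s (by linarith) (by rw [hsim])
  have hinv : ‖(s - 1)⁻¹‖ ≤ 1 := by
    rw [norm_inv]
    exact inv_le_one_of_one_le₀ hns
  have hB : 2 * (1620 * l ^ 2) * (1 / (10 ^ 18 * l ^ 9)) = 3240 / (10 ^ 18 * l ^ 7) := by
    field_simp
    norm_num
  rw [hB] at hlow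
  have hl7 : 0 < l ^ 7 := by positivity
  have hL9 : 0 < L ^ 9 := by positivity
  have hl2 : 1 ≤ l ^ 2 := one_le_pow₀ hl1
  have hl79 : l ^ 7 ≤ l ^ 9 := pow_le_pow_right₀ hl1 (by norm_num)
  have hz0 : 0 ≤ ‖riemannZeta s‖ := norm_nonneg _
  have hkey : 3240 ≤ ‖riemannZeta s‖ * (10 ^ 18 * l ^ 7) := by
    rwa [div_le_iff₀ (by positivity)] at hlow
  refine ⟨?_, ?_, ?_⟩
  · refine le_trans ?_ hlow
    rw [← one_div, div_le_div_iff₀ (by positivity) (by positivity)]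
    linarith
  · rw [riemannZeta_eq_inv_sub_add (sub_ne_zero.1 hs1)]
    refine le_trans (norm_add_le _ _) ?_
    linarith
  · rw [FLow_deriv (sub_ne_zero.1 hs1)]
    have h1 : ‖-(s - 1)⁻¹ ^ 2 + deriv riemannZeta₀ s‖ ≤ 21 * l ^ 2 := by
      refine le_trans (norm_add_le _ _) ?_
      rw [norm_neg, norm_pow]
      have h2 : ‖(s - 1)⁻¹‖ ^ 2 ≤ 1 := pow_le_one₀ (norm_nonneg _) hinv
      linarith
    refine le_trans h1 ?_
    have h3 : 21 * l ^ 2 * 3240 ≤ 21 * l ^ 2 * (‖riemannZeta s‖ * (10 ^ 18 * l ^ 7)) :=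
      mul_le_mul_of_nonneg_left hkey (by positivity)
    have h4 : 21 * l ^ 2 * (‖riemannZeta s‖ * (10 ^ 18 * l ^ 7)) =
        21 * 10 ^ 18 * (l ^ 9 * ‖riemannZeta s‖) := by ring
    have h5 : l ^ 9 * ‖riemannZeta s‖ ≤ 1953125 * L ^ 9 * ‖riemannZeta s‖ :=
      mul_le_mul_of_nonneg_right hl9 hz0
    have h6 : 0 ≤ L ^ 9 * ‖riemannZeta s‖ := by positivity
    have h7 : 10 ^ 23 * L ^ 9 * ‖riemannZeta s‖ = 10 ^ 23 * (L ^ 9 * ‖riemannZeta s‖) := by ring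
    have h8 : 1953125 * L ^ 9 * ‖riemannZeta s‖ = 1953125 * (L ^ 9 * ‖riemannZeta s‖) := by ring
    rw [h7]
    rw [h8] at h5
    rw [h4] at h3
    linarith

end Pool.Agent.Lib.MP_ec260d_ntD
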