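import Mathlib
import Pool.Agent.Lib.MP_ec260d_ntD.F.Defs
import Pool.Agent.Lib.MP_ec260d_ntD.F.FLow

/-!
# JOB F/FDet: all heights between 2 and a power of `l` are good (about 90 lines)

`|u' - u| ≤ 1/50`, so `1 ≤ |u'| ≤ l ^ A + 1` and `|u'| + 3 ≤ 5 l ^ A` (`l ≥ 1`), `log (|u'| + 3) ≤ log 5 + A log l ≤ (A + 2) log l` for `l ≥ 3` (`log l ≥ 1`). By `zeta_polylog` (with `t = u'`, `x = s`) all three bounds hold as soon as `C ((A + 2) log l) ^ 9 ≤ l ^ η`
(and `C (A + 2) log l ≤ l ^ η`, which is weaker since `(A + 2) log l ≥ 1`); true for all large `l` (`isLittleO_log_rpow_atTop` / `isLittleO_pow_log_id_atTop` / `Real.isLittleO_pow_log_id_atTop`, `tendsto`); `l ^ (-η) = (l ^ η)⁻¹ ≤ (C L ^ 9)⁻¹`.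
-/

namespace Pool.Agent.Lib.MP_ec260d_ntD

open Complex

theorem far_det (A η : ℝ) (hA : 0 ≤ A) (hη : 0 < η) : ∃ l₀ : ℝ, 2 ≤ l₀ ∧ ∀ l : ℝ, l₀ ≤ l → ∀ u : ℝ, 2 ≤ u → u ≤ l ^ A →
    FarOK η l u := by
  obtain ⟨C, hC1, hC⟩ := zeta_polylog
  have hC0 : 0 < C := by linarith
  have hA2 : 0 < (A + 2) ^ 9 := by positivity
  have ho := (isLittleO_log_rpow_rpow_atTop (s := η) 9 hη).def
    (c := 1 / (C * (A + 2) ^ 9)) (by positivity)
  obtain ⟨l₁, hl₁⟩ := Filter.eventually_atTop.1 ho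
  refine ⟨max l₁ 3, le_trans (by norm_num) (le_max_right _ _), fun l hl u hu hul => ?_⟩
  have hl3 : 3 ≤ l := (le_max_right _ _).trans hl
  have hl0 : 0 < l := by linarith
  have he := Real.exp_one_lt_d9
  have hll : 1 ≤ Real.log l := by
    rw [Real.le_log_iff_exp_le hl0]
    linarith
  have hlη : 0 < l ^ η := Real.rpow_pos_of_pos hl0 _
  have hbig : C * ((A + 2) * Real.log l) ^ 9 ≤ l ^ η := by
    have h1 := hl₁ l ((le_max_left _ _).trans hl)
    have h9 : Real.log l ^ (9 : ℝ) = Real.log l ^ 9 := by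
      rw [← Real.rpow_natCast]
      norm_num
    rw [h9, Real.norm_of_nonneg (by positivity), Real.norm_of_nonneg hlη.le, one_div_mul_eq_div,
      le_div_iff₀ (by positivity)] at h1
    calc C * ((A + 2) * Real.log l) ^ 9 = Real.log l ^ 9 * (C * (A + 2) ^ 9) := by ring
      _ ≤ l ^ η := h1
  intro u' s hu' hs hs'
  have hab := abs_le.1 hu'
  have hu1 : 1 ≤ u' := by linarith
  have hua : |u'| = u' := abs_of_nonneg (by linarith)
  obtain ⟨h1, h2, h3⟩ := hC u' s (by rw [hua]; exact hu1) hs (by linarith)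
  obtain ⟨L, hL⟩ : ∃ L : ℝ, L = Real.log (|u'| + 3) := ⟨_, rfl⟩
  rw [← hL] at h1 h2 h3
  have hlA : 1 ≤ l ^ A := Real.one_le_rpow (by linarith) hA
  have hL1 : 1 ≤ L := by
    rw [hL, Real.le_log_iff_exp_le (by rw [hua]; linarith), hua]
    linarith
  have hLM : L ≤ (A + 2) * Real.log l := by
    calc L ≤ Real.log (l ^ 2 * l ^ A) := by
          rw [hL, hua]
          refine Real.log_le_log (by linarith) ?_
          have h9 : 9 ≤ l ^ 2 := by nlinarith
          have h10 : 9 * l ^ A ≤ l ^ 2 * l ^ A := mul_le_mul_of_nonneg_right h9 (by linarith)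
          linarith
      _ = (A + 2) * Real.log l := by
          rw [Real.log_mul (by positivity) (by positivity), Real.log_pow, Real.log_rpow hl0]
          push_cast
          ring
  have hL9 : C * L ^ 9 ≤ l ^ η :=
    (mul_le_mul_of_nonneg_left (pow_le_pow_left₀ (by linarith) hLM 9) hC0.le).trans hbig
  have hL19 : C * L ≤ C * L ^ 9 := by
    refine mul_le_mul_of_nonneg_left ?_ hC0.le
    calc L = L ^ 1 := (pow_one L).symm
      _ ≤ L ^ 9 := pow_le_pow_right₀ hL1 (by norm_num)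
  refine ⟨h2.trans (hL19.trans hL9), ?_, h3.trans ?_⟩
  · refine le_trans ?_ h1
    rw [Real.rpow_neg hl0.le]
    exact inv_anti₀ (by positivity) hL9
  · exact mul_le_mul_of_nonneg_right hL9 (norm_nonneg _)

end Pool.Agent.Lib.MP_ec260d_ntD
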