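import Mathlib
import Pool.Agent.Lib.MP_ec260d_ntD.F.FDet
import Pool.Agent.Lib.MP_ec260d_ntD.F.FAvg
import Pool.Agent.Lib.MP_ec260d_ntD.R.ResOne
import Pool.Agent.Lib.MP_ec260d_ntD.P.ULip

/-!
# Robust form of `far_set`: all heights near the distance of two moving heights are good for most `t`
-/

namespace Pool.Agent.Lib.MP_ec260d_ntD

open Complex MeasureTheory Set

theorem far_shift (η ε C₁ δ : ℝ) (hη : 0 < η) (hε : 0 < ε) (hC₁ : 0 ≤ C₁) (hδ : |δ| ≤ 1 / 100) :
    ∃ T₀ : ℝ, 20 ≤ T₀ ∧ ∀ T : ℝ, T₀ ≤ T →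
    ∀ m m' : ℝ, 0 ≤ m → m ≤ m' → m' ≤ C₁ * (T * Real.log T) →
      volume {t : ℝ | t ∈ Icc T (2 * T) ∧ 5 / 2 ≤ Ph m' t - Ph m t ∧
        ¬ FarOK η (Real.log T) (Ph m' t - Ph m t + δ)} ≤ ENNReal.ofReal (ε * T) := by
  obtain ⟨hδ1, hδ2⟩ := abs_le.1 hδ
  obtain ⟨c, T₁, hc, hT₁, hdecr⟩ := u_decr C₁ hC₁
  obtain ⟨C, T₂, hC, hT₂, hlip⟩ := u_lip C₁ hC₁
  obtain ⟨T₃, hT₃, hgap⟩ := ph_gap C₁ hC₁
  have hε₁ : 0 < ε * c / (C + 1) := by positivity
  obtain ⟨l₁, hl₁2, hdet⟩ := far_det 7 η (by norm_num) hη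
  obtain ⟨l₂, hl₂2, havg⟩ := far_avg η (ε * c / (C + 1)) hη hε₁
  refine ⟨T₁ + T₂ + T₃ + Real.exp l₁ + Real.exp l₂ + Real.exp 6 + Real.exp (2 / c) + Real.exp C, ?_, ?_⟩
  · have := Real.exp_pos l₁
    have := Real.exp_pos l₂
    have := Real.exp_pos 6
    have := Real.exp_pos (2 / c)
    have := Real.exp_pos C
    linarith
  intro T hT m m' hm hmm hm'
  have e1 := Real.exp_pos l₁
  have e2 := Real.exp_pos l₂
  have e3 := Real.exp_pos 6
  have e4 := Real.exp_pos (2 / c)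
  have e5 := Real.exp_pos C
  have hTa : T₁ ≤ T := by linarith
  have hTb : T₂ ≤ T := by linarith
  have hTc : T₃ ≤ T := by linarith
  have hT20 : 20 ≤ T := by linarith
  have hTpos : 0 < T := by linarith
  have hl1 : l₁ ≤ Real.log T := (Real.le_log_iff_exp_le hTpos).2 (by linarith)
  have hl2 : l₂ ≤ Real.log T := (Real.le_log_iff_exp_le hTpos).2 (by linarith)
  have hl3 : 6 ≤ Real.log T := (Real.le_log_iff_exp_le hTpos).2 (by linarith)
  have hl4 : 2 / c ≤ Real.log T := (Real.le_log_iff_exp_le hTpos).2 (by linarith)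
  have hl5 : C ≤ Real.log T := (Real.le_log_iff_exp_le hTpos).2 (by linarith)
  have h2pe : 2 * Real.pi * Real.exp 1 ≤ 20 := by
    have h1 := Real.pi_lt_d2
    have h2 := Real.exp_one_lt_d9
    have h3 := Real.pi_pos
    have h4 := Real.exp_pos 1
    nlinarith
  set l := Real.log T with hl
  have hlpos : 0 < l := by linarith
  set u : ℝ → ℝ := fun t => Ph m' t - Ph m t with hu
  have u_nonneg : ∀ t, T ≤ t → 0 ≤ u t := by
    intro t ht
    have := ph_mono_m (m := m) (m' := m') (t := t) hm (by linarith) hmm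
    simp only [hu]
    linarith
  have hTl : 0 < T * l := mul_pos hTpos hlpos
  have decr : ∀ t t', T ≤ t → t ≤ t' → t' ≤ 2 * T → c * u t' / (T * l) * (t' - t) ≤ u t - u t' := by
    intro t t' h1 h2 h3
    exact hdecr T hTa m m' t t' hm hmm hm' h1 h2 h3
  have anti : ∀ t t', T ≤ t → t ≤ t' → t' ≤ 2 * T → u t' ≤ u t := by
    intro t t' h1 h2 h3
    have h := decr t t' h1 h2 h3
    have h0 : 0 ≤ c * u t' / (T * l) * (t' - t) := by
      have := u_nonneg t' (by linarith)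
      have : 0 ≤ t' - t := by linarith
      positivity
    linarith
  have gap : ∀ t t', T ≤ t → t ≤ 2 * T → T ≤ t' → t' ≤ 2 * T → u t ≤ 3 * u t' := by
    intro t t' h1 h2 h3 h4
    have ha := (hgap T hTc m m' t hm hmm hm' h1 h2).2
    have hb := (hgap T hTc m m' t' hm hmm hm' h3 h4).1
    simp only [hu]
    linarith
  by_cases hcase : ∀ t ∈ Icc T (2 * T), u t ≤ l ^ (6 : ℝ)
  · have hempty : {t : ℝ | t ∈ Icc T (2 * T) ∧ 5 / 2 ≤ Ph m' t - Ph m t ∧ ¬ FarOK η l (Ph m' t - Ph m t + δ)} = ∅ := by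
      rw [Set.eq_empty_iff_forall_notMem]
      rintro t ⟨ht, h3, hno⟩
      refine hno (hdet l hl1 (u t + δ) (by simp only [hu]; linarith) ?_)
      have hc1 := hcase t ht
      have e6 : l ^ (6 : ℝ) = l ^ 6 := by
        rw [← Real.rpow_natCast]; norm_num
      have e7 : l ^ (7 : ℝ) = l * l ^ 6 := by
        rw [← pow_succ' l 6, ← Real.rpow_natCast]; norm_num
      rw [e6] at hc1
      rw [e7]
      have h61 : 1 ≤ l ^ 6 := one_le_pow₀ (by linarith)
      nlinarith
    rw [hempty, measure_empty]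
    exact bot_le
  · push Not at hcase
    obtain ⟨t₀, ht₀, hbig⟩ := hcase
    have hl6 : l ^ (6 : ℝ) = l ^ 6 := by
      rw [← Real.rpow_natCast]; norm_num
    rw [hl6] at hbig
    have hg0 : u t₀ ≤ 3 * u (2 * T) := gap t₀ (2 * T) ht₀.1 ht₀.2 (by linarith) le_rfl
    have hu₁ : 2 * l ^ 5 ≤ u (2 * T) := by
      have h5 : 6 * l ^ 5 ≤ l ^ 6 := by
        have h5p : 0 < l ^ 5 := by positivity
        have : l ^ 6 = l * l ^ 5 := by ring
        rw [this]
        nlinarith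
      linarith
    have hl51 : 1 ≤ l ^ 5 := one_le_pow₀ (by linarith)
    have hu₁pos : 0 < u (2 * T) := lt_of_lt_of_le (by positivity) hu₁
    have hd := decr T (2 * T) le_rfl (by linarith) le_rfl
    have hd' : c * u (2 * T) / l ≤ u T - u (2 * T) := by
      have : c * u (2 * T) / (T * l) * (2 * T - T) = c * u (2 * T) / l := by
        field_simp
        ring
      rw [this] at hd
      exact hd
    have hlp : u T - u (2 * T) ≤ C * u (2 * T) / l := by
      have h := hlip T hTb m m' T (2 * T) hm hmm hm' le_rfl (by linarith) le_rfl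
      have h' : u T - u (2 * T) ≤ C * u (2 * T) / (T * l) * (2 * T - T) := h
      have : C * u (2 * T) / (T * l) * (2 * T - T) = C * u (2 * T) / l := by
        field_simp
        ring
      rw [this] at h'
      exact h'
    have hu₂ : u T ≤ 2 * u (2 * T) := by
      have : C * u (2 * T) / l ≤ u (2 * T) := by
        rw [div_le_iff₀ hlpos]
        nlinarith
      linarith
    have hlow : (u (2 * T) + δ) / l ^ 2 ≤ (u T + δ) - (u (2 * T) + δ) := by
      have h0 : (u T + δ) - (u (2 * T) + δ) = u T - u (2 * T) := by ring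
      rw [h0]
      refine le_trans ?_ hd'
      rw [div_le_div_iff₀ (by positivity) hlpos]
      have hcl : 2 ≤ c * l := by
        rw [div_le_iff₀ hc] at hl4
        linarith
      have : (u (2 * T) + δ) * l ≤ (c * l) * (u (2 * T) * l) := by
        have h1 : 0 ≤ u (2 * T) * l := (mul_pos hu₁pos hlpos).le
        have h3 : u (2 * T) + δ ≤ 2 * u (2 * T) := by linarith
        have h2 : (u (2 * T) + δ) * l ≤ (2 * u (2 * T)) * l := mul_le_mul_of_nonneg_right h3 hlpos.le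
        have h4 : 2 * (u (2 * T) * l) ≤ (c * l) * (u (2 * T) * l) := mul_le_mul_of_nonneg_right hcl h1
        linarith
      calc (u (2 * T) + δ) * l ≤ (c * l) * (u (2 * T) * l) := this
        _ = c * u (2 * T) * l ^ 2 := by ring
    have hκ : 0 < c * u (2 * T) / (T * l) := by positivity
    have hexp : ∀ x ∈ Icc T (2 * T), ∀ y ∈ Icc T (2 * T), c * u (2 * T) / (T * l) * |x - y| ≤ |u x - u y| := by
      have key : ∀ x y, T ≤ x → x ≤ y → y ≤ 2 * T → c * u (2 * T) / (T * l) * (y - x) ≤ u x - u y := by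
        intro x y h1 h2 h3
        refine le_trans ?_ (decr x y h1 h2 h3)
        have hy : u (2 * T) ≤ u y := anti y (2 * T) (by linarith) h3 le_rfl
        have hyx : 0 ≤ y - x := by linarith
        apply mul_le_mul_of_nonneg_right _ hyx
        apply div_le_div_of_nonneg_right _ hTl.le
        exact mul_le_mul_of_nonneg_left hy hc.le
      intro x hx y hy
      rcases le_total x y with h | h
      · have h1 := key x y hx.1 h hy.2
        rw [abs_sub_comm x y, abs_of_nonneg (by linarith : 0 ≤ y - x)]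
        exact le_trans h1 (le_abs_self _)
      · have h1 := key y x hy.1 h hx.2
        rw [abs_of_nonneg (by linarith : 0 ≤ x - y), abs_sub_comm (u x) (u y)]
        exact le_trans h1 (le_abs_self _)
    have hexp' : ∀ x ∈ Icc T (2 * T), ∀ y ∈ Icc T (2 * T),
        c * u (2 * T) / (T * l) * |x - y| ≤ |(u x + δ) - (u y + δ)| := by
      intro x hx y hy
      have h0 : (u x + δ) - (u y + δ) = u x - u y := by ring
      rw [h0]
      exact hexp x hx y hy
    have hv := vol_expand (fun t => u t + δ) (Icc T (2 * T))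
      {v : ℝ | v ∈ Icc (u (2 * T) + δ) (u T + δ) ∧ ¬ FarOK η l v} _ hκ hexp'
    have hB := havg l hl2 (u (2 * T) + δ) (u T + δ) (by linarith) (by linarith) hlow
    have hsub : {t : ℝ | t ∈ Icc T (2 * T) ∧ 5 / 2 ≤ Ph m' t - Ph m t ∧ ¬ FarOK η l (Ph m' t - Ph m t + δ)} ⊆
        Icc T (2 * T) ∩ (fun t => u t + δ) ⁻¹' {v : ℝ | v ∈ Icc (u (2 * T) + δ) (u T + δ) ∧ ¬ FarOK η l v} := by
      rintro t ⟨ht, -, hno⟩
      refine ⟨ht, ⟨?_, ?_⟩, hno⟩
      · have := anti t (2 * T) ht.1 ht.2 le_rfl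
        exact add_le_add_left this δ
      · have := anti T t le_rfl ht.1 ht.2
        exact add_le_add_left this δ
    refine le_trans (measure_mono hsub) (le_trans hv (le_trans (mul_le_mul' le_rfl hB) ?_))
    have hsd : (u T + δ) - (u (2 * T) + δ) = u T - u (2 * T) := by ring
    rw [hsd, ← ENNReal.ofReal_mul (by positivity)]
    apply ENNReal.ofReal_le_ofReal
    have hfin : (c * u (2 * T) / (T * l))⁻¹ * (ε * c / (C + 1) * (u T - u (2 * T))) ≤
        (c * u (2 * T) / (T * l))⁻¹ * (ε * c / (C + 1) * (C * u (2 * T) / l)) := by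
      apply mul_le_mul_of_nonneg_left _ (inv_nonneg.2 hκ.le)
      exact mul_le_mul_of_nonneg_left hlp hε₁.le
    refine le_trans hfin ?_
    have hC1 : 0 < C + 1 := by linarith
    have : (c * u (2 * T) / (T * l))⁻¹ * (ε * c / (C + 1) * (C * u (2 * T) / l)) = ε * T * (C / (C + 1)) := by
      field_simp
    rw [this]
    have hfrac : C / (C + 1) ≤ 1 := by
      rw [div_le_one hC1]; linarith
    have : 0 ≤ ε * T := by positivity
    nlinarith

/-- the two translates by `1/100` control the window of every nearby height -/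
theorem farOK_of_shift {η l u u'' : ℝ} (h : |u'' - u| ≤ 1 / 100) (h1 : FarOK η l (u + 1 / 100))
    (h2 : FarOK η l (u + -(1 / 100))) : FarOK η l u'' := by
  intro u' s hu hs hs'
  obtain ⟨a1, a2⟩ := abs_le.1 h
  obtain ⟨b1, b2⟩ := abs_le.1 hu
  rcases le_total u u' with hc | hc
  · exact h1 u' s (abs_le.2 ⟨by linarith, by linarith⟩) hs hs'
  · exact h2 u' s (abs_le.2 ⟨by linarith, by linarith⟩) hs hs'

theorem far_set2 (η ε C₁ : ℝ) (hη : 0 < η) (hε : 0 < ε) (hC₁ : 0 ≤ C₁) : ∃ T₀ : ℝ, 20 ≤ T₀ ∧ ∀ T : ℝ, T₀ ≤ T →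
    ∀ m m' : ℝ, 0 ≤ m → m ≤ m' → m' ≤ C₁ * (T * Real.log T) →
      volume {t : ℝ | t ∈ Icc T (2 * T) ∧ 5 / 2 ≤ Ph m' t - Ph m t ∧
        ∃ u'' : ℝ, |u'' - (Ph m' t - Ph m t)| ≤ 1 / 100 ∧ ¬ FarOK η (Real.log T) u''} ≤
        ENNReal.ofReal (ε * T) := by
  obtain ⟨T₁, hT₁, k1⟩ := far_shift η (ε / 2) C₁ (1 / 100) hη (by positivity) hC₁ (by norm_num)
  obtain ⟨T₂, hT₂, k2⟩ := far_shift η (ε / 2) C₁ (-(1 / 100)) hη (by positivity) hC₁ (by norm_num [abs_le])
  refine ⟨max T₁ T₂, hT₁.trans (le_max_left _ _), fun T hT m m' hm hmm hm' => ?_⟩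
  have j1 := k1 T ((le_max_left _ _).trans hT) m m' hm hmm hm'
  have j2 := k2 T ((le_max_right _ _).trans hT) m m' hm hmm hm'
  have hT0 : 0 ≤ T := by
    have := (le_max_left T₁ T₂).trans hT
    linarith
  have hsub : {t : ℝ | t ∈ Icc T (2 * T) ∧ 5 / 2 ≤ Ph m' t - Ph m t ∧
        ∃ u'' : ℝ, |u'' - (Ph m' t - Ph m t)| ≤ 1 / 100 ∧ ¬ FarOK η (Real.log T) u''} ⊆
      {t : ℝ | t ∈ Icc T (2 * T) ∧ 5 / 2 ≤ Ph m' t - Ph m t ∧
        ¬ FarOK η (Real.log T) (Ph m' t - Ph m t + 1 / 100)} ∪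
      {t : ℝ | t ∈ Icc T (2 * T) ∧ 5 / 2 ≤ Ph m' t - Ph m t ∧
        ¬ FarOK η (Real.log T) (Ph m' t - Ph m t + -(1 / 100))} := by
    rintro t ⟨ht, h3, u'', hu, hno⟩
    by_cases c1 : FarOK η (Real.log T) (Ph m' t - Ph m t + 1 / 100)
    · by_cases c2 : FarOK η (Real.log T) (Ph m' t - Ph m t + -(1 / 100))
      · exact absurd (farOK_of_shift hu c1 c2) hno
      · exact Or.inr ⟨ht, h3, c2⟩
    · exact Or.inl ⟨ht, h3, c1⟩
  refine (measure_mono hsub).trans ((measure_union_le _ _).trans ((add_le_add j1 j2).trans ?_))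
  rw [← ENNReal.ofReal_add (by positivity) (by positivity)]
  apply ENNReal.ofReal_le_ofReal
  linarith

end Pool.Agent.Lib.MP_ec260d_ntD
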